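import Pool.Agent.H37.WK.Shift

/-!
Module Exist.  There is an optimal family which is compressed towards larger elements.

Take among the optimal families (finitely many families on `V`, `∅` is one, so an optimal one
exists) one with the largest `Σ_{A ∈ U} Σ_{x ∈ A} x`.  If `A ∈ U`, `a ∈ A`, `b ∈ V`, `a < b`,
`b ∉ A` and `insert b (A.erase a) ∉ U`, then `shiftFam U a b` is again optimal (`shift_fam`,
`sh_injOn`, `sh_card`) and has a larger sum (no term decreases, the term of `A` increases by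
`b - a`).
-/

open Finset

namespace Pool.Agent.H37.WK

lemma exists_opt (V : Finset ℕ) (t : ℕ) :
    ∃ U : Finset (Finset ℕ), Opt V t U ∧
      ∀ A ∈ U, ∀ a ∈ A, ∀ b ∈ V, a < b → b ∉ A → insert b (A.erase a) ∈ U := by
  classical
  have hmem : ∀ U : Finset (Finset ℕ), Fam V (t + 1) U → U ∈ V.powerset.powerset := by
    intro U hU
    rw [Finset.mem_powerset]
    intro A hA
    exact Finset.mem_powerset.mpr (hU.1 A hA)
  have hempty : Fam V (t + 1) ∅ := ⟨by simp, by simp⟩
  obtain ⟨U0, hU0, hmax0⟩ := Finset.exists_max_image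
    (V.powerset.powerset.filter (fun U => Fam V (t + 1) U)) (fun U => W V.card t U)
    ⟨∅, Finset.mem_filter.mpr ⟨hmem _ hempty, hempty⟩⟩
  have hopt0 : Opt V t U0 := by
    refine ⟨(Finset.mem_filter.mp hU0).2, ?_⟩
    intro U' hU'
    exact hmax0 U' (Finset.mem_filter.mpr ⟨hmem _ hU', hU'⟩)
  obtain ⟨U, hU, hmax⟩ := Finset.exists_max_image
    (V.powerset.powerset.filter (fun U => Opt V t U)) (fun U => ∑ A ∈ U, ∑ x ∈ A, x)
    ⟨U0, Finset.mem_filter.mpr ⟨hmem _ hopt0.1, hopt0⟩⟩
  have hopt : Opt V t U := (Finset.mem_filter.mp hU).2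
  refine ⟨U, hopt, ?_⟩
  intro A hA a ha b hb hab hbA
  by_contra hcon
  have hne : a ≠ b := hab.ne
  have hinj := sh_injOn U hne
  have hfam : Fam V (t + 1) (shiftFam U a b) := shift_fam hopt.1 hne hb
  have hW : W V.card t (shiftFam U a b) = W V.card t U := by
    unfold W shiftFam
    rw [Finset.sum_image hinj]
    refine Finset.sum_congr rfl fun B _ => ?_
    rw [sh_card U hne]
  have hopt' : Opt V t (shiftFam U a b) := by
    refine ⟨hfam, ?_⟩
    intro U' hU'
    rw [hW]
    exact hopt.2 U' hU'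
  have h1 := hmax _ (Finset.mem_filter.mpr ⟨hmem _ hfam, hopt'⟩)
  have h2 : ∑ B ∈ shiftFam U a b, ∑ x ∈ B, x = ∑ B ∈ U, ∑ x ∈ sh U a b B, x := by
    unfold shiftFam
    rw [Finset.sum_image hinj]
  have h3 : ∀ B : Finset ℕ, a ∈ B → b ∉ B → ∑ x ∈ B, x < ∑ x ∈ insert b (B.erase a), x := by
    intro B haB hbB
    rw [Finset.sum_insert (fun hh => hbB (Finset.mem_of_mem_erase hh))]
    have := Finset.add_sum_erase B (fun x => x) haB
    omega
  have h4 : ∑ B ∈ U, ∑ x ∈ B, x < ∑ B ∈ U, ∑ x ∈ sh U a b B, x := by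
    apply Finset.sum_lt_sum
    · intro B _
      unfold sh
      split_ifs with h
      · exact (h3 B h.1 h.2.1).le
      · exact le_rfl
    · refine ⟨A, hA, ?_⟩
      unfold sh
      rw [if_pos ⟨ha, hbA, hcon⟩]
      exact h3 A ha hbA
  omega

end Pool.Agent.H37.WK
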