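import Pool.Agent.H37.WK.Step
import Pool.Agent.H37.WK.Exist

/-!
Module Final.  Symmetry on `[2, n]` and the end of the proof.

`sym_all` by downward induction on `m` (from `n` to `2`): the block is `Icc m n`.  Base `m = n`: two
subsets of a one-element set of equal size are equal.  Step `m + 1 → m` with `m ≥ 2`: `Ctx` with
`B = Icc (m+1) n`, `e = m`, `T = Icc 1 (m-1)` (nonempty); `shB`, `shT` from compression.  Let
`I, I' ⊆ Icc m n` of equal size `i`, `C ⊆ Icc 1 (m-1)`, `I ∪ C ∈ U`.  If both or none of `I, I'` contain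
`m`: symmetry of the block (with tail `C` or `insert m C`).  If `m ∉ I`, `m ∈ I'`: `1 ≤ i ≤ |B|`,
`C ∈ X i`, `L i = ∅` so `C ∈ Y i`, and `mem_Y`.  If `m ∈ I`, `m ∉ I'`: there is `x ∈ B \ I`
(`i = |I'| ≤ |B|`), `shB` gives `insert x (I.erase m) ∪ C ∈ U`, then block symmetry.

`endgame`: let `A ∈ U`.  If `1 ∉ A` let `A = I ⊆ Icc 2 n`; by symmetry all sets `I'` of the same size are
in `U`, and two of them meet in `2 |I| - (n-1)` elements (`inter_min`), so `2 |I| ≥ n + t`.  If `1 ∈ A`,
`A = insert 1 I`: two such sets can meet in `1 + (2 |I| - (n-1))` elements (truncated), so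
`2 |I| ≥ n + t - 1` (as `t + 1 ≥ 2`).  Hence `A ∈ base n t` in both parities.
-/

open Finset

namespace Pool.Agent.H37.WK

/-- The family `F(n,t)`. -/
def base (n t : ℕ) : Finset (Finset ℕ) :=
  if Odd (n + t) then (Icc 1 n).powerset.filter (fun A => n + t + 1 ≤ 2 * A.card)
  else (Icc 1 n).powerset.filter (fun A => n + t ≤ 2 * (A ∩ (Icc 1 n \ {1})).card)

lemma sym_all {n t : ℕ} (ht : 1 ≤ t) (hn : 4 * t ^ 3 ≤ n) {U : Finset (Finset ℕ)}
    (hU : Opt (Icc 1 n) t U)
    (hc : ∀ A ∈ U, ∀ a ∈ A, ∀ b ∈ Icc 1 n, a < b → b ∉ A → insert b (A.erase a) ∈ U)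
    {m : ℕ} (hm : 2 ≤ m) (hmn : m ≤ n) :
    ∀ I ⊆ Icc m n, ∀ I' ⊆ Icc m n, I.card = I'.card → ∀ C ⊆ Icc 1 (m - 1),
      I ∪ C ∈ U → I' ∪ C ∈ U := by
  obtain ⟨k, hk⟩ : ∃ k, n - m = k := ⟨_, rfl⟩
  induction k generalizing m with
  | zero =>
    intro I hI I' hI' hcard C hC hIC
    have hmn' : m = n := by omega
    subst hmn'
    rw [Finset.Icc_self] at hI hI'
    rcases Finset.subset_singleton_iff.1 hI with h1 | h1 <;>
    rcases Finset.subset_singleton_iff.1 hI' with h2 | h2
    · rw [h1] at hIC; rw [h2]; exact hIC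
    · rw [h1, h2] at hcard; simp at hcard
    · rw [h1, h2] at hcard; simp at hcard
    · rw [h1] at hIC; rw [h2]; exact hIC
  | succ k ih =>
    have hlt : m < n := by omega
    have IH := ih (m := m + 1) (by omega) (by omega) (by omega)
    have e1 : insert m (Icc 1 (m - 1)) = Icc 1 (m + 1 - 1) := by
      ext x; simp only [mem_insert, mem_Icc]; omega
    have e2 : insert m (Icc (m + 1) n ∪ Icc 1 (m - 1)) = Icc 1 n := by
      ext x; simp only [mem_insert, mem_union, mem_Icc]; omega
    have hctx : Ctx (Icc (m + 1) n) (Icc 1 (m - 1)) m t U := by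
      refine ⟨ht, ?_, ?_, ?_, ?_, ?_, ?_, ?_⟩
      · simp
      · simp only [mem_Icc]; omega
      · rw [Finset.disjoint_left]; intro x hx; simp only [mem_Icc] at hx ⊢; omega
      · rw [e2]; exact hU
      · intro I hI I' hI' hII C hC
        rw [e1] at hC
        exact IH I hI I' hI' hII C hC
      · intro A hA hmA x hx hxA
        rw [mem_Icc] at hx
        exact hc A hA m hmA x (by rw [mem_Icc]; omega) (by omega) hxA
      · intro A hA hmA b hb hbA
        rw [mem_Icc] at hb
        exact hc A hA b hbA m (by rw [mem_Icc]; omega) (by omega) hmA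
    have hcardV : (insert m (Icc (m + 1) n ∪ Icc 1 (m - 1))).card = n := by
      rw [e2, Nat.card_Icc, Nat.add_sub_cancel]
    have hTne : (Icc 1 (m - 1)).Nonempty := ⟨1, by rw [mem_Icc]; omega⟩
    have hB : ∀ J ⊆ Icc m n, m ∉ J → J ⊆ Icc (m + 1) n := by
      intro J hJ hmJ x hx
      have h1 := hJ hx
      rw [mem_Icc] at h1 ⊢
      have : x ≠ m := fun h => hmJ (h ▸ hx)
      omega
    have hBe : ∀ J ⊆ Icc m n, J.erase m ⊆ Icc (m + 1) n := by
      intro J hJ
      exact hB _ ((Finset.erase_subset _ _).trans hJ) (Finset.notMem_erase _ _)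
    intro I hI I' hI' hcard C hC hIC
    have hmC : m ∉ C := by
      intro h
      have := hC h
      rw [mem_Icc] at this
      omega
    have hCi : C ⊆ insert m (Icc 1 (m - 1)) := hC.trans (Finset.subset_insert _ _)
    by_cases h1 : m ∈ I <;> by_cases h2 : m ∈ I'
    · have e3 : I ∪ C = I.erase m ∪ insert m C := by
        ext x; simp only [mem_union, mem_erase, mem_insert]
        by_cases hx : x = m
        · subst hx; simp [h1]
        · simp [hx]
      have e4 : I' ∪ C = I'.erase m ∪ insert m C := by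
        ext x; simp only [mem_union, mem_erase, mem_insert]
        by_cases hx : x = m
        · subst hx; simp [h2]
        · simp [hx]
      rw [e3] at hIC
      rw [e4]
      refine hctx.sym _ (hBe I hI) _ (hBe I' hI') ?_ _ (Finset.insert_subset_insert _ hC) hIC
      rw [Finset.card_erase_of_mem h1, Finset.card_erase_of_mem h2, hcard]
    · -- `m ∈ I`, `m ∉ I'`
      have hI'B := hB I' hI' h2
      have hlt2 : (I.erase m).card < (Icc (m + 1) n).card := by
        have h3 := Finset.card_le_card hI'B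
        have h4 : (I.erase m).card < I.card := Finset.card_erase_lt_of_mem h1
        omega
      obtain ⟨x, hxB, hxI⟩ := Finset.exists_mem_notMem_of_card_lt_card hlt2
      have hxm : x ≠ m := by
        rw [mem_Icc] at hxB; omega
      have hxI' : x ∉ I := fun h => hxI (Finset.mem_erase.2 ⟨hxm, h⟩)
      have hxC : x ∉ C := by
        intro h
        have := hC h
        rw [mem_Icc] at this hxB
        omega
      have h5 := hctx.shB (I ∪ C) hIC (Finset.mem_union_left _ h1) x hxB
        (by rw [mem_union]; tauto)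
      have e5 : insert x ((I ∪ C).erase m) = insert x (I.erase m) ∪ C := by
        ext y; simp only [mem_insert, mem_erase, mem_union]
        by_cases hy : y = m
        · subst hy; simp [hmC]
        · simp [hy]; tauto
      rw [e5] at h5
      refine hctx.sym _ ?_ _ hI'B ?_ C hCi h5
      · exact Finset.insert_subset hxB (hBe I hI)
      · rw [Finset.card_insert_of_notMem hxI, Finset.card_erase_of_mem h1, ← hcard]
        have : 0 < I.card := Finset.card_pos.2 ⟨m, h1⟩
        omega
    · -- `m ∉ I`, `m ∈ I'`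
      have hIB := hB I hI h1
      have hi : 1 ≤ I.card := by
        rw [hcard]
        exact Finset.card_pos.2 ⟨m, h2⟩
      have hst := step hctx (by rw [hcardV]; exact hn) hTne hi (Finset.card_le_card hIB)
      have hX : C ∈ X (Icc (m + 1) n) (Icc 1 (m - 1)) U I.card := by
        unfold X
        rw [Finset.mem_filter, Finset.mem_powerset]
        exact ⟨hC, I, Finset.mem_powersetCard.2 ⟨hIB, rfl⟩, hIC⟩
      have hY : C ∈ Y (Icc (m + 1) n) (Icc 1 (m - 1)) m U I.card := by
        by_contra hY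
        have : C ∈ L (Icc (m + 1) n) (Icc 1 (m - 1)) m U I.card := by
          unfold L
          exact Finset.mem_sdiff.2 ⟨hX, hY⟩
        rw [hst] at this
        simp at this
      have h6 := (mem_Y hctx hi hY).2.2 (I'.erase m) (hBe I' hI') (by
        rw [Finset.card_erase_of_mem h2, hcard]
        have : 0 < I'.card := Finset.card_pos.2 ⟨m, h2⟩
        omega)
      have e6 : insert m (I'.erase m ∪ C) = I' ∪ C := by
        rw [← Finset.insert_union, Finset.insert_erase h2]
      rwa [e6] at h6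
    · exact hctx.sym I (hB I hI h1) I' (hB I' hI' h2) hcard C hCi hIC

lemma endgame {n t : ℕ} (ht : 1 ≤ t) (hn : 2 ≤ n) {U : Finset (Finset ℕ)}
    (hU : Fam (Icc 1 n) (t + 1) U)
    (hs : ∀ I ⊆ Icc 2 n, ∀ I' ⊆ Icc 2 n, I.card = I'.card → ∀ C ⊆ Icc 1 1,
      I ∪ C ∈ U → I' ∪ C ∈ U) : U ⊆ base n t := by
  intro A hA
  have hAV : A ⊆ Icc 1 n := hU.1 A hA
  have hc2 : (Icc 2 n).card = n - 1 := by rw [Nat.card_Icc]; omega
  by_cases h1 : 1 ∈ A
  · have hI : A.erase 1 ⊆ Icc 2 n := by
      intro x hx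
      rw [Finset.mem_erase] at hx
      have := hAV hx.2
      rw [mem_Icc] at this ⊢
      omega
    have hIc : (A.erase 1).card ≤ (Icc 2 n).card := Finset.card_le_card hI
    obtain ⟨P, hP, Q, hQ, hPQ⟩ := inter_min (Icc 2 n) hIc hIc
    rw [Finset.mem_powersetCard] at hP hQ
    have hA' : A.erase 1 ∪ {1} ∈ U := by
      have : A.erase 1 ∪ {1} = A := by
        rw [Finset.union_comm, ← Finset.insert_eq, Finset.insert_erase h1]
      rwa [this]
    have h1s : ({1} : Finset ℕ) ⊆ Icc 1 1 := by simp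
    have hPU := hs _ hI P hP.1 hP.2.symm {1} h1s hA'
    have hQU := hs _ hI Q hQ.1 hQ.2.symm {1} h1s hA'
    have hm := hU.2 _ hPU _ hQU
    have h1P : ∀ J ⊆ Icc 2 n, (1 : ℕ) ∉ J := by
      intro J hJ h
      have := hJ h
      rw [mem_Icc] at this
      omega
    have e1 : (P ∪ {1}) ∩ (Q ∪ {1}) = insert 1 (P ∩ Q) := by
      ext x; simp only [mem_inter, mem_union, mem_singleton, mem_insert]; tauto
    rw [e1, Finset.card_insert_of_notMem (fun h => h1P P hP.1 (Finset.mem_inter.1 h).1), hPQ,
      hc2] at hm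
    have hcA : (A.erase 1).card + 1 = A.card := Finset.card_erase_add_one h1
    unfold base
    split_ifs with hodd
    · rw [Finset.mem_filter, Finset.mem_powerset]
      refine ⟨hAV, ?_⟩
      omega
    · rw [Finset.mem_filter, Finset.mem_powerset]
      refine ⟨hAV, ?_⟩
      have e2 : A ∩ (Icc 1 n \ {1}) = A.erase 1 := by
        ext x; simp only [mem_inter, mem_sdiff, mem_singleton, mem_erase]
        constructor
        · rintro ⟨h, _, h'⟩; exact ⟨h', h⟩
        · rintro ⟨h', h⟩; exact ⟨h, hAV h, h'⟩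
      rw [e2]
      rw [Nat.not_odd_iff_even] at hodd
      obtain ⟨r, hr⟩ := hodd
      omega
  · have hI : A ⊆ Icc 2 n := by
      intro x hx
      have := hAV hx
      have hx1 : x ≠ 1 := fun h => h1 (h ▸ hx)
      rw [mem_Icc] at this ⊢
      omega
    have hIc : A.card ≤ (Icc 2 n).card := Finset.card_le_card hI
    obtain ⟨P, hP, Q, hQ, hPQ⟩ := inter_min (Icc 2 n) hIc hIc
    rw [Finset.mem_powersetCard] at hP hQ
    have hA' : A ∪ ∅ ∈ U := by rwa [Finset.union_empty]
    have hPU := hs _ hI P hP.1 hP.2.symm ∅ (Finset.empty_subset _) hA'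
    have hQU := hs _ hI Q hQ.1 hQ.2.symm ∅ (Finset.empty_subset _) hA'
    rw [Finset.union_empty] at hPU hQU
    have hm := hU.2 _ hPU _ hQU
    rw [hPQ, hc2] at hm
    unfold base
    split_ifs with hodd
    · rw [Finset.mem_filter, Finset.mem_powerset]
      refine ⟨hAV, ?_⟩
      obtain ⟨r, hr⟩ := hodd
      omega
    · rw [Finset.mem_filter, Finset.mem_powerset]
      refine ⟨hAV, ?_⟩
      have e2 : A ∩ (Icc 1 n \ {1}) = A := by
        ext x; simp only [mem_inter, mem_sdiff, mem_singleton]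
        constructor
        · rintro ⟨h, _⟩; exact h
        · intro h; exact ⟨h, hAV h, fun h' => h1 (h' ▸ h)⟩
      rw [e2]
      omega

/-- **The weighted intersection theorem.** -/
theorem weighted {n t : ℕ} (ht : 1 ≤ t) (hn : 4 * t ^ 3 ≤ n) {U : Finset (Finset ℕ)}
    (hU : Fam (Icc 1 n) (t + 1) U) : W n t U ≤ W n t (base n t) := by
  obtain ⟨U', hopt, hc⟩ := exists_opt (Icc 1 n) t
  have hn2 : 2 ≤ n := by
    have : 1 ≤ t ^ 3 := Nat.one_le_pow _ _ ht
    omega
  have h1 := hopt.2 U hU
  rw [Nat.card_Icc, Nat.add_sub_cancel] at h1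
  refine h1.trans ?_
  unfold W
  apply Finset.sum_le_sum_of_subset
  exact endgame ht hn2 hopt.1 (sym_all ht hn hopt hc (le_refl 2) hn2)

end Pool.Agent.H37.WK
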