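import Pool.Agent.H37.WK.Final

/-!
Module Trans.  Disjoint pairs and the weight.  Definitions as in the hand-in CaseOne.

`pairs_le`: let `F` be a family of subsets of `[n]` without members of size `t`, `R` its members of
size `> t`, `S` those of size `< t`.  A two-element subfamily with disjoint members is contained in
`S`, or in `R`, or has one member `B ∈ S` and one member `A ∈ R`; the number of the third kind is at
most `Σ_{A ∈ R} #{B ⊆ [n] \ A : |B| < t} = W n t R` (the sets `B ⊆ [n] \ A` with `|B| = j` are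
`C(n - |A|, j)` in number).

`pairs_ge`: the two-element subfamilies of `starFamily` inside `small`, and the pairs `{A, B}` with
`A ∈ baseFamily`, `B ∈ small`, `B ⊆ [n] \ A`, are distinct (members of `baseFamily` have size `> t`
for `n > t`: `2 |A| ≥ n + t + 1`, resp. `≥ n + t`, `n ≥ t + 1`).
-/

open Finset

namespace Pool.Agent.H37.WK

/-- No two members of `F`, distinct or equal, meet in exactly `t` elements. -/
def IsStronglyAvoiding (t : ℕ) (F : Finset (Finset ℕ)) : Prop :=
  ∀ A ∈ F, ∀ B ∈ F, (A ∩ B).card ≠ t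

/-- The number of two-element subfamilies of `F` whose two members are disjoint. -/
def disjPairs (F : Finset (Finset ℕ)) : ℕ :=
  ((F.powersetCard 2).filter (fun P => ∀ A ∈ P, ∀ B ∈ P, A ≠ B → A ∩ B = ∅)).card

/-- The subsets of `[n]` with fewer than `t` elements. -/
def small (n t : ℕ) : Finset (Finset ℕ) := (Icc 1 n).powerset.filter (fun A => A.card + 1 ≤ t)

/-- The family `F*(n,t)`. -/
def starFamily (n t : ℕ) : Finset (Finset ℕ) := base n t ∪ small n t

private lemma trans_card_powerset_filter (Z : Finset ℕ) (t : ℕ) :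
    (Z.powerset.filter (fun D : Finset ℕ => D.card < t)).card = sb t Z.card := by
  unfold sb
  rw [Finset.card_eq_sum_card_fiberwise (f := Finset.card) (t := range t)]
  · apply Finset.sum_congr rfl
    intro j hj
    rw [← Finset.card_powersetCard]
    congr 1
    ext D
    simp only [Finset.mem_filter, Finset.mem_powerset, Finset.mem_powersetCard]
    constructor
    · rintro ⟨⟨h1, h2⟩, h3⟩
      exact ⟨h1, h3⟩
    · rintro ⟨h1, h3⟩
      have := Finset.mem_range.1 hj
      exact ⟨⟨h1, by omega⟩, h3⟩
  · intro D hD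
    have h := (Finset.mem_filter.1 (Finset.mem_coe.1 hD)).2
    exact Finset.mem_coe.2 (Finset.mem_range.2 h)

private def transSig (n t : ℕ) (R : Finset (Finset ℕ)) :
    Finset ((_ : Finset ℕ) × Finset ℕ) :=
  R.sigma (fun A => (Icc 1 n \ A).powerset.filter (fun D : Finset ℕ => D.card < t))

private lemma trans_card_sig {n t : ℕ} {R : Finset (Finset ℕ)} (hR : ∀ A ∈ R, A ⊆ Icc 1 n) :
    (transSig n t R).card = W n t R := by
  unfold transSig W
  rw [Finset.card_sigma]
  apply Finset.sum_congr rfl
  intro A hA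
  rw [trans_card_powerset_filter, Finset.card_sdiff_of_subset (hR A hA), Nat.card_Icc,
    Nat.add_sub_cancel]

private lemma trans_mem_disj {F P : Finset (Finset ℕ)} :
    P ∈ (F.powersetCard 2).filter (fun P => ∀ A ∈ P, ∀ B ∈ P, A ≠ B → A ∩ B = ∅) ↔
      ∃ A ∈ F, ∃ B ∈ F, A ≠ B ∧ A ∩ B = ∅ ∧ P = {A, B} := by
  rw [Finset.mem_filter, Finset.mem_powersetCard]
  constructor
  · rintro ⟨⟨h1, h2⟩, h3⟩
    obtain ⟨A, B, hAB, rfl⟩ := Finset.card_eq_two.1 h2
    exact ⟨A, h1 (by simp), B, h1 (by simp), hAB, h3 A (by simp) B (by simp) hAB, rfl⟩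
  · rintro ⟨A, hA, B, hB, hAB, hd, rfl⟩
    refine ⟨⟨?_, Finset.card_pair hAB⟩, ?_⟩
    · intro D hD
      rcases Finset.mem_insert.1 hD with rfl | hD
      · exact hA
      · rw [Finset.mem_singleton.1 hD]; exact hB
    · intro C hC D hD hCD
      rcases Finset.mem_insert.1 hC with h1 | h1 <;> rcases Finset.mem_insert.1 hD with h2 | h2
      · exact absurd (h1.trans h2.symm) hCD
      · rw [Finset.mem_singleton.1 h2, h1]; exact hd
      · rw [Finset.mem_singleton.1 h1, h2, Finset.inter_comm]; exact hd
      · exact absurd ((Finset.mem_singleton.1 h1).trans (Finset.mem_singleton.1 h2).symm) hCD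

lemma pairs_le {n t : ℕ} {F : Finset (Finset ℕ)} (hV : ∀ A ∈ F, A ⊆ Icc 1 n)
    (hF : IsStronglyAvoiding t F) :
    disjPairs F ≤ disjPairs (small n t) + W n t (F.filter (fun A => t < A.card))
      + disjPairs (F.filter (fun A => t < A.card)) := by
  set R := F.filter (fun A => t < A.card) with hR
  have hRV : ∀ A ∈ R, A ⊆ Icc 1 n := fun A hA => hV A (Finset.mem_filter.1 hA).1
  have hsz : ∀ A ∈ F, A.card < t ∨ A ∈ R := by
    intro A hA
    have h1 := hF A hA A hA
    rw [Finset.inter_self] at h1
    rcases lt_or_gt_of_ne h1 with h2 | h2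
    · exact Or.inl h2
    · exact Or.inr (Finset.mem_filter.2 ⟨hA, h2⟩)
  rw [← trans_card_sig hRV]
  have hsub : (F.powersetCard 2).filter (fun P => ∀ A ∈ P, ∀ B ∈ P, A ≠ B → A ∩ B = ∅) ⊆
      (((small n t).powersetCard 2).filter (fun P => ∀ A ∈ P, ∀ B ∈ P, A ≠ B → A ∩ B = ∅) ∪
        (transSig n t R).image (fun p => ({p.1, p.2} : Finset (Finset ℕ)))) ∪
      (R.powersetCard 2).filter (fun P => ∀ A ∈ P, ∀ B ∈ P, A ≠ B → A ∩ B = ∅) := by
    intro P hP
    obtain ⟨A, hA, B, hB, hAB, hd, rfl⟩ := trans_mem_disj.1 hP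
    have hmix : ∀ A ∈ F, ∀ B ∈ F, A ∈ R → B.card < t → A ∩ B = ∅ →
        ({A, B} : Finset (Finset ℕ)) ∈
          (transSig n t R).image (fun p => ({p.1, p.2} : Finset (Finset ℕ))) := by
      intro A hA B hB hAR hBt hd
      rw [Finset.mem_image]
      refine ⟨⟨A, B⟩, ?_, rfl⟩
      unfold transSig
      rw [Finset.mem_sigma]
      refine ⟨hAR, ?_⟩
      rw [Finset.mem_filter, Finset.mem_powerset]
      refine ⟨?_, hBt⟩
      intro x hx
      rw [Finset.mem_sdiff]
      refine ⟨hV B hB hx, fun hxA => ?_⟩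
      have : x ∈ A ∩ B := Finset.mem_inter.2 ⟨hxA, hx⟩
      rw [hd] at this
      simp at this
    rcases hsz A hA with h1 | h1 <;> rcases hsz B hB with h2 | h2
    · apply Finset.mem_union_left
      apply Finset.mem_union_left
      apply trans_mem_disj.2
      refine ⟨A, ?_, B, ?_, hAB, hd, rfl⟩
      · unfold small
        rw [Finset.mem_filter, Finset.mem_powerset]
        exact ⟨hV A hA, by omega⟩
      · unfold small
        rw [Finset.mem_filter, Finset.mem_powerset]
        exact ⟨hV B hB, by omega⟩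
    · apply Finset.mem_union_left
      apply Finset.mem_union_right
      rw [Finset.pair_comm]
      exact hmix B hB A hA h2 h1 (by rw [Finset.inter_comm]; exact hd)
    · apply Finset.mem_union_left
      apply Finset.mem_union_right
      exact hmix A hA B hB h1 h2 hd
    · apply Finset.mem_union_right
      exact trans_mem_disj.2 ⟨A, h1, B, h2, hAB, hd, rfl⟩
  calc disjPairs F ≤ _ := Finset.card_le_card hsub
    _ ≤ _ := Finset.card_union_le _ _
    _ ≤ _ := by
        apply Nat.add_le_add_right
        refine (Finset.card_union_le _ _).trans ?_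
        exact Nat.add_le_add_left Finset.card_image_le _

lemma pairs_ge {n t : ℕ} (hn : t + 1 ≤ n) :
    disjPairs (small n t) + W n t (base n t) ≤ disjPairs (starFamily n t) := by
  have hbase : ∀ A ∈ base n t, A ⊆ Icc 1 n ∧ t < A.card := by
    intro A hA
    unfold base at hA
    split_ifs at hA with hodd
    · rw [Finset.mem_filter, Finset.mem_powerset] at hA
      exact ⟨hA.1, by omega⟩
    · rw [Finset.mem_filter, Finset.mem_powerset] at hA
      refine ⟨hA.1, ?_⟩
      have := Finset.card_le_card (Finset.inter_subset_left (s₁ := A) (s₂ := Icc 1 n \ {1}))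
      omega
  rw [← trans_card_sig (fun A hA => (hbase A hA).1)]
  have hsig : ∀ p ∈ transSig n t (base n t), p.1 ∈ base n t ∧ p.2 ∈ small n t ∧
      p.1 ∩ p.2 = ∅ ∧ p.2.card < t := by
    intro p hp
    unfold transSig at hp
    rw [Finset.mem_sigma, Finset.mem_filter, Finset.mem_powerset] at hp
    obtain ⟨h1, h2, h3⟩ := hp
    refine ⟨h1, ?_, ?_, h3⟩
    · unfold small
      rw [Finset.mem_filter, Finset.mem_powerset]
      exact ⟨h2.trans Finset.sdiff_subset, by omega⟩
    · rw [← Finset.disjoint_iff_inter_eq_empty]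
      rw [Finset.disjoint_left]
      intro x hx1 hx2
      exact (Finset.mem_sdiff.1 (h2 hx2)).2 hx1
  have hinj : Set.InjOn (fun p : (_ : Finset ℕ) × Finset ℕ => ({p.1, p.2} : Finset (Finset ℕ)))
      (transSig n t (base n t)) := by
    intro p hp q hq hpq
    obtain ⟨p1, p2, p3, p4⟩ := hsig p (Finset.mem_coe.1 hp)
    obtain ⟨q1, q2, q3, q4⟩ := hsig q (Finset.mem_coe.1 hq)
    have a1 := (hbase _ p1).2
    have b1 := (hbase _ q1).2
    simp only at hpq
    have h1 : p.1 ∈ ({q.1, q.2} : Finset (Finset ℕ)) := by rw [← hpq]; simp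
    have h2 : p.2 ∈ ({q.1, q.2} : Finset (Finset ℕ)) := by rw [← hpq]; simp
    have e1 : p.1 = q.1 := by
      rcases Finset.mem_insert.1 h1 with h | h
      · exact h
      · rw [Finset.mem_singleton.1 h] at a1; omega
    have e2 : p.2 = q.2 := by
      rcases Finset.mem_insert.1 h2 with h | h
      · rw [h] at p4; omega
      · exact Finset.mem_singleton.1 h
    cases p; cases q
    simp only at e1 e2
    subst e1; subst e2; rfl
  rw [← Finset.card_image_of_injOn hinj]
  unfold disjPairs
  rw [← Finset.card_union_of_disjoint]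
  · apply Finset.card_le_card
    intro P hP
    rcases Finset.mem_union.1 hP with hP | hP
    · obtain ⟨A, hA, B, hB, hAB, hd, rfl⟩ := trans_mem_disj.1 hP
      exact trans_mem_disj.2 ⟨A, Finset.mem_union_right _ hA, B, Finset.mem_union_right _ hB,
        hAB, hd, rfl⟩
    · obtain ⟨p, hp, rfl⟩ := Finset.mem_image.1 hP
      obtain ⟨p1, p2, p3, p4⟩ := hsig p hp
      refine trans_mem_disj.2 ⟨p.1, Finset.mem_union_left _ p1, p.2, Finset.mem_union_right _ p2,
        ?_, p3, rfl⟩
      intro he
      have := (hbase _ p1).2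
      rw [he] at this
      omega
  · rw [Finset.disjoint_left]
    intro P hP hP'
    obtain ⟨p, hp, rfl⟩ := Finset.mem_image.1 hP'
    obtain ⟨p1, p2, p3, p4⟩ := hsig p hp
    have h1 := (Finset.mem_powersetCard.1 (Finset.mem_filter.1 hP).1).1
    have h2 : p.1 ∈ small n t := h1 (by simp)
    unfold small at h2
    have h3 := (Finset.mem_filter.1 h2).2
    have := (hbase _ p1).2
    omega

end Pool.Agent.H37.WK
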