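import Pool.Agent.H37.WK.Up

/-!
Module Basic.  Elementary facts on `X`, `Y`, `L`, `Old`, `New`.

`inter_min`: choose `I = ` any `i`-subset and `J` with as many elements outside `I` as possible
(for instance with an enumeration of `B`: `I` the first `i`, `J` the last `j` elements).
`V_Old`, `V_New`: the maps `(I, C) ↦ I ∪ C` and `(I, C) ↦ insert e (I ∪ C)` are injective on
`powersetCard _ B ×ˢ T.powerset` (intersect with `B` and with `T`), the sizes are `i + |C|`.
-/

open Finset

namespace Pool.Agent.H37.WK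

lemma inter_min (B : Finset ℕ) {i j : ℕ} (hi : i ≤ B.card) (hj : j ≤ B.card) :
    ∃ I ∈ B.powersetCard i, ∃ J ∈ B.powersetCard j, (I ∩ J).card = i + j - B.card := by
  obtain ⟨I, hIB, hIc⟩ := Finset.exists_subset_card_eq hi
  have hBI : (B \ I).card = B.card - i := by
    rw [Finset.card_sdiff_of_subset hIB, hIc]
  by_cases hle : j ≤ B.card - i
  · obtain ⟨J, hJ, hJc⟩ := Finset.exists_subset_card_eq (s := B \ I) (n := j) (by omega)
    refine ⟨I, Finset.mem_powersetCard.2 ⟨hIB, hIc⟩, J,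
      Finset.mem_powersetCard.2 ⟨hJ.trans Finset.sdiff_subset, hJc⟩, ?_⟩
    have : I ∩ J = ∅ := by
      rw [← Finset.disjoint_iff_inter_eq_empty]
      exact (Finset.disjoint_sdiff).mono_right hJ
    rw [this, Finset.card_empty]
    omega
  · push Not at hle
    obtain ⟨K, hK, hKc⟩ := Finset.exists_subset_card_eq (s := I) (n := j - (B.card - i)) (by omega)
    have hdis : Disjoint (B \ I) K := (Finset.sdiff_disjoint).mono_right hK
    refine ⟨I, Finset.mem_powersetCard.2 ⟨hIB, hIc⟩, (B \ I) ∪ K,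
      Finset.mem_powersetCard.2 ⟨Finset.union_subset Finset.sdiff_subset (hK.trans hIB), ?_⟩, ?_⟩
    · rw [Finset.card_union_of_disjoint hdis, hBI, hKc]
      omega
    · have : I ∩ ((B \ I) ∪ K) = K := by
        ext x
        simp only [Finset.mem_inter, Finset.mem_union, Finset.mem_sdiff]
        constructor
        · rintro ⟨h1, h2 | h2⟩
          · exact absurd h1 h2.2
          · exact h2
        · intro h
          exact ⟨hK h, Or.inr h⟩
      rw [this, hKc]
      omega

lemma inter_ge {B I J : Finset ℕ} (hI : I ⊆ B) (hJ : J ⊆ B) :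
    I.card + J.card ≤ B.card + (I ∩ J).card := by
  rw [← Finset.card_union_add_card_inter]
  exact Nat.add_le_add_right (Finset.card_le_card (Finset.union_subset hI hJ)) _

/-- Intersection of two sets split along `B` and `T`, both without `e`. -/
lemma card_inter_00 {B T : Finset ℕ} (hBT : Disjoint B T) {I J C D : Finset ℕ} (hI : I ⊆ B)
    (hJ : J ⊆ B) (hC : C ⊆ T) (hD : D ⊆ T) :
    ((I ∪ C) ∩ (J ∪ D)).card = (I ∩ J).card + (C ∩ D).card := by
  have h1 : (I ∪ C) ∩ (J ∪ D) = (I ∩ J) ∪ (C ∩ D) := by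
    ext x
    simp only [Finset.mem_inter, Finset.mem_union]
    have hx : ¬ (x ∈ B ∧ x ∈ T) := fun h => (Finset.disjoint_left.1 hBT) h.1 h.2
    have h1 := @hI x
    have h2 := @hJ x
    have h3 := @hC x
    have h4 := @hD x
    tauto
  rw [h1, Finset.card_union_of_disjoint]
  exact hBT.mono (Finset.inter_subset_left.trans hI) (Finset.inter_subset_left.trans hC)

lemma card_inter_10 {B T : Finset ℕ} {e : ℕ} (hBT : Disjoint B T) (heB : e ∉ B) (heT : e ∉ T)
    {I J C D : Finset ℕ} (hI : I ⊆ B) (hJ : J ⊆ B) (hC : C ⊆ T) (hD : D ⊆ T) :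
    (insert e (I ∪ C) ∩ (J ∪ D)).card = (I ∩ J).card + (C ∩ D).card := by
  have h1 : insert e (I ∪ C) ∩ (J ∪ D) = (I ∪ C) ∩ (J ∪ D) := by
    ext x
    simp only [Finset.mem_inter, Finset.mem_union, Finset.mem_insert]
    constructor
    · rintro ⟨h1 | h1, h2⟩
      · subst h1
        rcases h2 with h2 | h2
        · exact absurd (hJ h2) heB
        · exact absurd (hD h2) heT
      · exact ⟨h1, h2⟩
    · rintro ⟨h1, h2⟩
      exact ⟨Or.inr h1, h2⟩
  rw [h1, card_inter_00 hBT hI hJ hC hD]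

lemma card_inter_11 {B T : Finset ℕ} {e : ℕ} (hBT : Disjoint B T) (heB : e ∉ B) (heT : e ∉ T)
    {I J C D : Finset ℕ} (hI : I ⊆ B) (hJ : J ⊆ B) (hC : C ⊆ T) (hD : D ⊆ T) :
    (insert e (I ∪ C) ∩ insert e (J ∪ D)).card = (I ∩ J).card + (C ∩ D).card + 1 := by
  have h1 : insert e (I ∪ C) ∩ insert e (J ∪ D) = insert e ((I ∪ C) ∩ (J ∪ D)) := by
    rw [Finset.insert_inter_distrib]
  have h2 : e ∉ (I ∪ C) ∩ (J ∪ D) := by
    intro h
    rcases Finset.mem_union.1 (Finset.mem_inter.1 h).1 with h | h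
    · exact heB (hI h)
    · exact heT (hC h)
  rw [h1, Finset.card_insert_of_notMem h2, card_inter_00 hBT hI hJ hC hD]

/-- Every set is `I ∪ C` or `insert e (I ∪ C)`. -/
lemma decomp {B T A : Finset ℕ} {e : ℕ} (hA : A ⊆ insert e (B ∪ T)) :
    (e ∉ A → A = (A ∩ B) ∪ (A ∩ T)) ∧ (e ∈ A → A = insert e ((A ∩ B) ∪ (A ∩ T))) := by
  constructor
  · intro he
    ext x
    simp only [Finset.mem_inter, Finset.mem_union]
    constructor
    · intro hx
      have := hA hx
      rcases Finset.mem_insert.1 this with h | h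
      · subst h; exact absurd hx he
      · rcases Finset.mem_union.1 h with h | h
        · exact Or.inl ⟨hx, h⟩
        · exact Or.inr ⟨hx, h⟩
    · rintro (h | h)
      · exact h.1
      · exact h.1
  · intro he
    ext x
    simp only [Finset.mem_inter, Finset.mem_union, Finset.mem_insert]
    constructor
    · intro hx
      have := hA hx
      rcases Finset.mem_insert.1 this with h | h
      · exact Or.inl h
      · rcases Finset.mem_union.1 h with h | h
        · exact Or.inr (Or.inl ⟨hx, h⟩)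
        · exact Or.inr (Or.inr ⟨hx, h⟩)
    · rintro (h | h | h)
      · subst h; exact he
      · exact h.1
      · exact h.1

lemma mem_X {B T : Finset ℕ} {e t : ℕ} {U : Finset (Finset ℕ)} (h : Ctx B T e t U) {i : ℕ}
    {C : Finset ℕ} (hC : C ∈ X B T U i) :
    C ⊆ T ∧ i ≤ B.card ∧ ∀ I ⊆ B, I.card = i → I ∪ C ∈ U := by
  classical
  obtain ⟨hCT, I, hI, hU⟩ := Finset.mem_filter.1 hC
  obtain ⟨hIB, hIc⟩ := Finset.mem_powersetCard.1 hI
  have hCT' : C ⊆ T := Finset.mem_powerset.1 hCT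
  refine ⟨hCT', hIc ▸ Finset.card_le_card hIB, ?_⟩
  intro J hJ hJc
  exact h.sym I hIB J hJ (by rw [hIc, hJc]) C (hCT'.trans (Finset.subset_insert _ _)) hU

lemma mem_Y {B T : Finset ℕ} {e t : ℕ} {U : Finset (Finset ℕ)} (h : Ctx B T e t U) {i : ℕ}
    (hi : 1 ≤ i) {C : Finset ℕ} (hC : C ∈ Y B T e U i) :
    C ⊆ T ∧ i ≤ B.card + 1 ∧ ∀ I ⊆ B, I.card + 1 = i → insert e (I ∪ C) ∈ U := by
  classical
  simp only [Y, Finset.mem_filter] at hC
  obtain ⟨hCT, I, hI, hU⟩ := hC
  obtain ⟨hIB, hIc⟩ := Finset.mem_powersetCard.1 hI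
  have hCT' : C ⊆ T := Finset.mem_powerset.1 hCT
  have hle := Finset.card_le_card hIB
  refine ⟨hCT', by omega, ?_⟩
  intro J hJ hJc
  have h1 := h.sym I hIB J hJ (by omega) (insert e C) (Finset.insert_subset_insert _ hCT')
  rw [Finset.union_insert, Finset.union_insert] at h1
  exact h1 hU

/-- `X` is an up-set. -/
lemma X_up {B T : Finset ℕ} {e t : ℕ} {U : Finset (Finset ℕ)} (h : Ctx B T e t U) {i : ℕ}
    {C D : Finset ℕ} (hC : C ∈ X B T U i) (hCD : C ⊆ D) (hD : D ⊆ T) : D ∈ X B T U i := by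
  classical
  obtain ⟨hCT, I, hI, hU⟩ := Finset.mem_filter.1 hC
  obtain ⟨hIB, hIc⟩ := Finset.mem_powersetCard.1 hI
  refine Finset.mem_filter.2 ⟨Finset.mem_powerset.2 hD, I, hI, ?_⟩
  refine opt_up h.ht h.opt hU (Finset.union_subset_union (Finset.Subset.refl _) hCD) ?_
  exact (Finset.union_subset_union hIB hD).trans (Finset.subset_insert _ _)

private lemma basic_inj {B T : Finset ℕ} (hBT : Disjoint B T) {I J C D : Finset ℕ} (hI : I ⊆ B)
    (hJ : J ⊆ B) (hC : C ⊆ T) (hD : D ⊆ T) (h : I ∪ C = J ∪ D) : (I, C) = (J, D) := by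
  have key : ∀ x, (x ∈ I ↔ x ∈ J) ∧ (x ∈ C ↔ x ∈ D) := by
    intro x
    have hx : ¬ (x ∈ B ∧ x ∈ T) := fun h => (Finset.disjoint_left.1 hBT) h.1 h.2
    have h1 := @hI x
    have h2 := @hJ x
    have h3 := @hC x
    have h4 := @hD x
    have h5 : x ∈ I ∪ C ↔ x ∈ J ∪ D := by rw [h]
    simp only [Finset.mem_union] at h5
    tauto
  rw [Prod.mk.injEq]
  exact ⟨Finset.ext fun x => (key x).1, Finset.ext fun x => (key x).2⟩

lemma W_Old {n t i : ℕ} {B T : Finset ℕ} (hBT : Disjoint B T) {H : Finset (Finset ℕ)}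
    (hH : ∀ C ∈ H, C ⊆ T) : W n t (Old B i H) = B.card.choose i * V n t i H := by
  classical
  unfold W Old V
  rw [Finset.sum_image]
  · rw [Finset.sum_product]
    have : ∀ I ∈ B.powersetCard i, ∑ C ∈ H, sb t (n - (I ∪ C).card) =
        ∑ C ∈ H, sb t (n - (i + C.card)) := by
      intro I hI
      obtain ⟨hIB, hIc⟩ := Finset.mem_powersetCard.1 hI
      refine Finset.sum_congr rfl fun C hC => ?_
      rw [Finset.card_union_of_disjoint (hBT.mono hIB (hH C hC)), hIc]
    rw [Finset.sum_congr rfl this, Finset.sum_const, Finset.card_powersetCard, smul_eq_mul]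
  · rintro ⟨I, C⟩ h1 ⟨J, D⟩ h2 h12
    have h1' := Finset.mem_product.1 (Finset.mem_coe.1 h1)
    have h2' := Finset.mem_product.1 (Finset.mem_coe.1 h2)
    simp only at h1' h2' h12
    exact basic_inj hBT (Finset.mem_powersetCard.1 h1'.1).1 (Finset.mem_powersetCard.1 h2'.1).1
      (hH C h1'.2) (hH D h2'.2) h12

lemma W_New {n t i e : ℕ} {B T : Finset ℕ} (hBT : Disjoint B T) (heB : e ∉ B) (heT : e ∉ T)
    {H : Finset (Finset ℕ)} (hH : ∀ C ∈ H, C ⊆ T) (hi : 1 ≤ i) :
    W n t (New B e i H) = B.card.choose (i - 1) * V n t i H := by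
  classical
  have hne : ∀ I ⊆ B, ∀ C ∈ H, e ∉ I ∪ C := by
    intro I hI C hC h
    rcases Finset.mem_union.1 h with h | h
    · exact heB (hI h)
    · exact heT (hH C hC h)
  unfold W New V
  rw [Finset.sum_image]
  · rw [Finset.sum_product]
    have : ∀ I ∈ B.powersetCard (i - 1), ∑ C ∈ H, sb t (n - (insert e (I ∪ C)).card) =
        ∑ C ∈ H, sb t (n - (i + C.card)) := by
      intro I hI
      obtain ⟨hIB, hIc⟩ := Finset.mem_powersetCard.1 hI
      refine Finset.sum_congr rfl fun C hC => ?_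
      rw [Finset.card_insert_of_notMem (hne I hIB C hC),
        Finset.card_union_of_disjoint (hBT.mono hIB (hH C hC)), hIc]
      congr 2
      omega
    rw [Finset.sum_congr rfl this, Finset.sum_const, Finset.card_powersetCard, smul_eq_mul]
  · rintro ⟨I, C⟩ h1 ⟨J, D⟩ h2 h12
    have h1' := Finset.mem_product.1 (Finset.mem_coe.1 h1)
    have h2' := Finset.mem_product.1 (Finset.mem_coe.1 h2)
    simp only at h1' h2' h12
    have hIB := (Finset.mem_powersetCard.1 h1'.1).1
    have hJB := (Finset.mem_powersetCard.1 h2'.1).1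
    have h3 : I ∪ C = J ∪ D := by
      have : (insert e (I ∪ C)).erase e = (insert e (J ∪ D)).erase e := by rw [h12]
      rwa [Finset.erase_insert (hne I hIB C h1'.2), Finset.erase_insert (hne J hJB D h2'.2)] at this
    exact basic_inj hBT hIB hJB (hH C h1'.2) (hH D h2'.2) h3

end Pool.Agent.H37.WK
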