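import Pool.Agent.H37.WK.Basic

/-!
Module Conf.  The conflicts.  Write `l = |B|`, `s = t + 1`.

`lem1`: `C ∈ X i`, `D ∈ X j` with a common element `b`: take `I, J` with `|I ∩ J| = i + j - l`
(`inter_min`), shift `b` to `e` in `I ∪ C` (`shT`); the new set and `J ∪ D` meet in
`|I ∩ J| + |C ∩ D| - 1` elements.

`lem0`: `C ∈ X i`, `D ∈ X j` disjoint: `|I ∩ J| ≥ s` for `|I ∩ J| = i + j - l`.

`confl_old`: a set `insert e (I ∪ C)` with `C ∈ L i`, `|I| = i - 1`, meets every member `A` of `U` in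
at least `s` elements unless `e ∉ A`, `i + |A ∩ B| = l + s`, `C` and `A ∩ T` are disjoint and
`A ∩ T ∈ L |A ∩ B|`.  Proof.  If `e ∈ A`, `A = insert e (J ∪ D)`: take `I₁ = insert x I ⊆ B`
(`|I| < i ≤ l`), `I₁ ∪ C ∈ U` meets `A` in `|I₁ ∩ J| + |C ∩ D| ≤ |I ∩ J| + 1 + |C ∩ D|` elements.
If `e ∉ A`, `A = J ∪ D`, `j = |J|`, `D ∈ X j`: the intersection has `|I ∩ J| + |C ∩ D|` elements and
`|I ∩ J| + l ≥ i - 1 + j`.  If `C ∩ D ≠ ∅` use `lem1`.  If `C ∩ D = ∅`, `lem0` gives `i + j ≥ l + s`, so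
`i + j = l + s`; and `D ∉ Y j`, since otherwise `insert e (J' ∪ D) ∈ U` with `|J'| = j - 1` would meet
`I' ∪ C` (`|I'| = i`) for all such `I', J'`, in particular in only `i + j - 1 - l = s - 1` elements
(`inter_min`).

`confl_new`: two new sets: `|I ∩ J| + |C ∩ D| + 1 ≥ s` unless `i + j = l + s` and `C ∩ D = ∅`:
same arithmetic, `|I ∩ J| + l ≥ i + j - 2`.

`cross`: `C ∈ X i`, `D ∈ Y i`, `2 i = l + s` are not disjoint (the computation above).
-/

open Finset

namespace Pool.Agent.H37.WK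

variable {B T : Finset ℕ} {e t : ℕ} {U : Finset (Finset ℕ)}

private lemma conf_left {B T : Finset ℕ} {e t : ℕ} {U : Finset (Finset ℕ)} (h : Ctx B T e t U)
    {i : ℕ} {C : Finset ℕ} (hC : C ∈ L B T e U i) : C ∈ X B T U i := by
  unfold L at hC
  exact (Finset.mem_sdiff.mp hC).1

lemma lem1 (h : Ctx B T e t U) {i j : ℕ} {C D : Finset ℕ} (hC : C ∈ X B T U i)
    (hD : D ∈ X B T U j) (hCD : ¬ Disjoint C D) :
    t + 2 ≤ (i + j - B.card) + (C ∩ D).card := by
  obtain ⟨hCT, hi, hCU⟩ := mem_X h hC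
  obtain ⟨hDT, hj, hDU⟩ := mem_X h hD
  obtain ⟨I, hI, J, hJ, hIJ⟩ := inter_min B hi hj
  rw [Finset.mem_powersetCard] at hI hJ
  obtain ⟨b, hbC, hbD⟩ := Finset.not_disjoint_iff.mp hCD
  have hbT : b ∈ T := hCT hbC
  have hA1 := hCU I hI.1 hI.2
  have hA2 := hDU J hJ.1 hJ.2
  have heA : e ∉ I ∪ C := by
    rw [Finset.mem_union]
    rintro (h1 | h1)
    · exact h.heB (hI.1 h1)
    · exact h.heT (hCT h1)
  have hsh := h.shT _ hA1 heA b hbT (Finset.mem_union_right _ hbC)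
  have hbI : b ∉ I := fun h1 => Finset.disjoint_left.mp h.hBT (hI.1 h1) hbT
  have her : (I ∪ C).erase b = I ∪ C.erase b := by
    rw [Finset.erase_union_distrib, Finset.erase_eq_of_notMem hbI]
  rw [her] at hsh
  have hint := h.opt.1.2 _ hsh _ hA2
  rw [card_inter_10 h.hBT h.heB h.heT hI.1 hJ.1 ((Finset.erase_subset _ _).trans hCT) hDT,
    hIJ, Finset.erase_inter, Finset.card_erase_of_mem (Finset.mem_inter.mpr ⟨hbC, hbD⟩)] at hint
  have hpos : 0 < (C ∩ D).card := Finset.card_pos.mpr ⟨b, Finset.mem_inter.mpr ⟨hbC, hbD⟩⟩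
  omega

lemma lem0 (h : Ctx B T e t U) {i j : ℕ} {C D : Finset ℕ} (hC : C ∈ X B T U i)
    (hD : D ∈ X B T U j) (hCD : Disjoint C D) : B.card + t + 1 ≤ i + j := by
  obtain ⟨hCT, hi, hCU⟩ := mem_X h hC
  obtain ⟨hDT, hj, hDU⟩ := mem_X h hD
  obtain ⟨I, hI, J, hJ, hIJ⟩ := inter_min B hi hj
  rw [Finset.mem_powersetCard] at hI hJ
  have hint := h.opt.1.2 _ (hCU I hI.1 hI.2) _ (hDU J hJ.1 hJ.2)
  rw [card_inter_00 h.hBT hI.1 hJ.1 hCT hDT, hIJ, Finset.disjoint_iff_inter_eq_empty.mp hCD,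
    Finset.card_empty] at hint
  omega

lemma cross (h : Ctx B T e t U) {i j : ℕ} (hj : 1 ≤ j) {C D : Finset ℕ} (hC : C ∈ X B T U i)
    (hD : D ∈ Y B T e U j) (hCD : Disjoint C D) : B.card + t + 2 ≤ i + j := by
  obtain ⟨hCT, hi, hCU⟩ := mem_X h hC
  obtain ⟨hDT, hj', hDU⟩ := mem_Y h hj hD
  obtain ⟨J, hJ, I, hI, hIJ⟩ := inter_min B (i := j - 1) (j := i) (by omega) hi
  rw [Finset.mem_powersetCard] at hI hJ
  have hint := h.opt.1.2 _ (hDU J hJ.1 (by omega)) _ (hCU I hI.1 hI.2)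
  rw [card_inter_10 h.hBT h.heB h.heT hJ.1 hI.1 hDT hCT, hIJ,
    Finset.disjoint_iff_inter_eq_empty.mp hCD.symm, Finset.card_empty] at hint
  omega

lemma confl_old (h : Ctx B T e t U) {i : ℕ} (hi : 1 ≤ i) {I C A : Finset ℕ}
    (hC : C ∈ L B T e U i) (hI : I ⊆ B) (hIc : I.card + 1 = i) (hA : A ∈ U)
    (hcon : (insert e (I ∪ C) ∩ A).card < t + 1) :
    e ∉ A ∧ i + (A ∩ B).card = B.card + t + 1 ∧ Disjoint C (A ∩ T) ∧
      A ∩ T ∈ L B T e U (A ∩ B).card := by
  have hCX := conf_left h hC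
  obtain ⟨hCT, hiB, hCU⟩ := mem_X h hCX
  have hAsub := h.opt.1.1 A hA
  have hdec := decomp (B := B) (T := T) (A := A) (e := e) hAsub
  have hJ : A ∩ B ⊆ B := Finset.inter_subset_right
  have hD : A ∩ T ⊆ T := Finset.inter_subset_right
  set J := A ∩ B with hJdef
  set D := A ∩ T with hDdef
  have heA : e ∉ A := by
    intro heA
    have hAe := hdec.2 heA
    rw [hAe, card_inter_11 h.hBT h.heB h.heT hI hJ hCT hD] at hcon
    obtain ⟨x, hxB, hxI⟩ : ∃ x ∈ B, x ∉ I := by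
      by_contra hne
      push Not at hne
      have := Finset.card_le_card (show B ⊆ I from hne)
      omega
    have hI1 : insert x I ⊆ B := Finset.insert_subset hxB hI
    have hI1c : (insert x I).card = i := by
      rw [Finset.card_insert_of_notMem hxI]
      exact hIc
    have hint := h.opt.1.2 _ hA _ (hCU _ hI1 hI1c)
    rw [hAe, card_inter_10 h.hBT h.heB h.heT hJ hI1 hD hCT] at hint
    have h1 : (J ∩ insert x I).card ≤ (I ∩ J).card + 1 := by
      have : J ∩ insert x I ⊆ insert x (I ∩ J) := by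
        intro y hy
        rw [Finset.mem_inter, Finset.mem_insert] at hy
        rw [Finset.mem_insert, Finset.mem_inter]
        rcases hy.2 with h2 | h2
        · exact Or.inl h2
        · exact Or.inr ⟨h2, hy.1⟩
      exact (Finset.card_le_card this).trans (Finset.card_insert_le _ _)
    have h2 : (D ∩ C).card = (C ∩ D).card := by rw [Finset.inter_comm]
    omega
  have hAe := hdec.1 heA
  have hDX : D ∈ X B T U J.card := by
    unfold X
    rw [Finset.mem_filter, Finset.mem_powerset]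
    refine ⟨hD, J, ?_, ?_⟩
    · rw [Finset.mem_powersetCard]
      exact ⟨hJ, rfl⟩
    · rw [← hAe]
      exact hA
  have hcon2 : (I ∩ J).card + (C ∩ D).card < t + 1 := by
    rw [hAe, card_inter_10 h.hBT h.heB h.heT hI hJ hCT hD] at hcon
    exact hcon
  have hge := inter_ge (B := B) hI hJ
  have hdis : Disjoint C D := by
    by_contra hnd
    have := lem1 h hCX hDX hnd
    omega
  have h0 := lem0 h hCX hDX hdis
  rw [Finset.disjoint_iff_inter_eq_empty.mp hdis, Finset.card_empty] at hcon2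
  have heq : i + J.card = B.card + t + 1 := by omega
  refine ⟨heA, heq, hdis, ?_⟩
  unfold L
  rw [Finset.mem_sdiff]
  refine ⟨hDX, fun hDY => ?_⟩
  have := cross h (by omega) hCX hDY hdis
  omega

lemma confl_new (h : Ctx B T e t U) {i j : ℕ} (hi : 1 ≤ i) (hj : 1 ≤ j) {I J C D : Finset ℕ}
    (hC : C ∈ L B T e U i) (hD : D ∈ L B T e U j) (hI : I ⊆ B) (hIc : I.card + 1 = i)
    (hJ : J ⊆ B) (hJc : J.card + 1 = j)
    (hcon : (insert e (I ∪ C) ∩ insert e (J ∪ D)).card < t + 1) :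
    i + j = B.card + t + 1 ∧ Disjoint C D := by
  have hCX := conf_left h hC
  have hDX := conf_left h hD
  obtain ⟨hCT, hiB, hCU⟩ := mem_X h hCX
  obtain ⟨hDT, hjB, hDU⟩ := mem_X h hDX
  rw [card_inter_11 h.hBT h.heB h.heT hI hJ hCT hDT] at hcon
  have hge := inter_ge (B := B) hI hJ
  have hdis : Disjoint C D := by
    by_contra hnd
    have := lem1 h hCX hDX hnd
    omega
  have h0 := lem0 h hCX hDX hdis
  refine ⟨by omega, hdis⟩

end Pool.Agent.H37.WK
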