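import Mathlib

/-!
Weighted intersecting families (MP_28c1b3_co): definitions.

`sb t b` is the number of subsets of size `< t` of a set of size `b`; `W n t U` is the number of
pairs `(A, S)` with `A` in `U`, `S` of size `< t` in `[n]` and `S` disjoint from `A`.
-/

open Finset

namespace Pool.Agent.H37.WK

/-- `sb t b = Σ_{j<t} C(b,j)`. -/
def sb (t b : ℕ) : ℕ := ∑ j ∈ range t, b.choose j

/-- The weight of a family. -/
def W (n t : ℕ) (U : Finset (Finset ℕ)) : ℕ := ∑ A ∈ U, sb t (n - A.card)

/-- All members of `U` lie in `V`, and any two of them, equal or not, meet in at least `s`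
elements. -/
def Fam (V : Finset ℕ) (s : ℕ) (U : Finset (Finset ℕ)) : Prop :=
  (∀ A ∈ U, A ⊆ V) ∧ ∀ A ∈ U, ∀ B ∈ U, s ≤ (A ∩ B).card

/-- `U` has the largest weight among the families on `V` whose members pairwise meet in at least
`t + 1` elements. -/
def Opt (V : Finset ℕ) (t : ℕ) (U : Finset (Finset ℕ)) : Prop :=
  Fam V (t + 1) U ∧ ∀ U' : Finset (Finset ℕ), Fam V (t + 1) U' → W V.card t U' ≤ W V.card t U

/-- The situation of the symmetrisation step: `B` is the symmetric block, `e` the next element,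
`T` the rest; elements of the block are preferred to `e`, and `e` is preferred to elements of
`T`. -/
structure Ctx (B T : Finset ℕ) (e t : ℕ) (U : Finset (Finset ℕ)) : Prop where
  ht : 1 ≤ t
  heB : e ∉ B
  heT : e ∉ T
  hBT : Disjoint B T
  opt : Opt (insert e (B ∪ T)) t U
  sym : ∀ I ⊆ B, ∀ I' ⊆ B, I.card = I'.card → ∀ C ⊆ insert e T, I ∪ C ∈ U → I' ∪ C ∈ U
  shB : ∀ A ∈ U, e ∈ A → ∀ x ∈ B, x ∉ A → insert x (A.erase e) ∈ U
  shT : ∀ A ∈ U, e ∉ A → ∀ b ∈ T, b ∈ A → insert e (A.erase b) ∈ U

open Classical in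
/-- Tails of the members without `e` with `i` elements in the block. -/
noncomputable def X (B T : Finset ℕ) (U : Finset (Finset ℕ)) (i : ℕ) : Finset (Finset ℕ) :=
  T.powerset.filter (fun C : Finset ℕ => ∃ I ∈ B.powersetCard i, I ∪ C ∈ U)

open Classical in
/-- Tails of the members with `e` and with `i - 1` elements in the block. -/
noncomputable def Y (B T : Finset ℕ) (e : ℕ) (U : Finset (Finset ℕ)) (i : ℕ) : Finset (Finset ℕ) :=
  T.powerset.filter (fun C : Finset ℕ => ∃ I ∈ B.powersetCard (i - 1), insert e (I ∪ C) ∈ U)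

/-- The tails at which the family is not symmetric. -/
noncomputable def L (B T : Finset ℕ) (e : ℕ) (U : Finset (Finset ℕ)) (i : ℕ) : Finset (Finset ℕ) :=
  X B T U i \ Y B T e U i

/-- The sets without `e`, with `i` elements in the block and tail in `H`. -/
def Old (B : Finset ℕ) (i : ℕ) (H : Finset (Finset ℕ)) : Finset (Finset ℕ) :=
  (B.powersetCard i ×ˢ H).image (fun p => p.1 ∪ p.2)

/-- The sets with `e`, with `i - 1` elements in the block and tail in `H`. -/
def New (B : Finset ℕ) (e i : ℕ) (H : Finset (Finset ℕ)) : Finset (Finset ℕ) :=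
  (B.powersetCard (i - 1) ×ˢ H).image (fun p => insert e (p.1 ∪ p.2))

/-- The weight of a family of tails at level `i`. -/
def V (n t i : ℕ) (H : Finset (Finset ℕ)) : ℕ := ∑ C ∈ H, sb t (n - (i + C.card))

end Pool.Agent.H37.WK
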