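import Pool.Agent.H37.WK.Conf

/-!
Module Diag.  The level `2 i = l + t + 1`.

For an intersecting `H ⊆ L i` the family `(U \ Old i (L i \ H)) ∪ New i H` lies in `Fam _ (t+1)`:
`confl_old`, `confl_new` (conflicts only with disjoint tails, and the members of `U` with
`|A ∩ B| = i`, `e ∉ A`, tail in `L i` which remain have their tail in `H`).  Optimality:
`W (New i H) ≤ W (Old i (L i \ H))`, i.e. `C(l,i-1) V(H) ≤ C(l,i) (V(L i) - V(H))`; with
`C(l,i-1) (l-i+1) = i C(l,i)` and `2 (l-i+1) = l - t + 1`, `2 i = l + t + 1`: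
`(l + t + 1) V(H) ≤ (l - t + 1) (V(L i) - V(H))`.
-/

open Finset

namespace Pool.Agent.H37.WK

variable {B T : Finset ℕ} {e t : ℕ} {U : Finset (Finset ℕ)}

lemma ineq_diag (h : Ctx B T e t U) {i : ℕ} (hi : 1 ≤ i) (hil : i ≤ B.card)
    (hij : 2 * i = B.card + t + 1) {H : Finset (Finset ℕ)} (hH : H ⊆ L B T e U i)
    (hint : ∀ C ∈ H, ∀ D ∈ H, ¬ Disjoint C D) :
    (B.card + t + 1) * V (insert e (B ∪ T)).card t i H
        + (B.card + 1 - t) * V (insert e (B ∪ T)).card t i H
      ≤ (B.card + 1 - t) * V (insert e (B ∪ T)).card t i (L B T e U i) := by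
  classical
  have hLX : ∀ C ∈ L B T e U i, C ∈ X B T U i := fun C hC => (mem_sdiff.1 hC).1
  have hLY : ∀ C ∈ L B T e U i, C ∉ Y B T e U i := fun C hC => (mem_sdiff.1 hC).2
  have hLT : ∀ C ∈ L B T e U i, C ⊆ T := fun C hC => (mem_X h (hLX C hC)).1
  set n := (insert e (B ∪ T)).card with hn
  set O := Old B i (L B T e U i \ H) with hO
  set N := New B e i H with hN
  have hOU : O ⊆ U := by
    intro A hA
    simp only [hO, Old, mem_image, mem_product, mem_powersetCard, mem_sdiff, Prod.exists] at hA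
    obtain ⟨I, C, ⟨⟨hI, hIc⟩, hC, -⟩, rfl⟩ := hA
    exact (mem_X h (hLX C hC)).2.2 I hI hIc
  have hNmem : ∀ A ∈ N, ∃ I C, I ⊆ B ∧ I.card + 1 = i ∧ C ∈ H ∧ A = insert e (I ∪ C) := by
    intro A hA
    simp only [hN, New, mem_image, mem_product, mem_powersetCard, Prod.exists] at hA
    obtain ⟨I, C, ⟨⟨hI, hIc⟩, hC⟩, rfl⟩ := hA
    exact ⟨I, C, hI, by omega, hC, rfl⟩
  have hNU : Disjoint N U := by
    rw [disjoint_left]
    intro A hA hAU
    obtain ⟨I, C, hI, hIc, hC, rfl⟩ := hNmem A hA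
    apply hLY C (hH hC)
    simp only [Y, mem_filter, mem_powerset]
    exact ⟨hLT C (hH hC), I, mem_powersetCard.2 ⟨hI, by omega⟩, hAU⟩
  have hOld : ∀ A ∈ U, e ∉ A → (A ∩ B).card = i → A ∩ T ∈ L B T e U i → A ∉ O → A ∩ T ∈ H := by
    intro A hA heA hc hL hAO
    by_contra hcon
    apply hAO
    simp only [hO, Old, mem_image, mem_product, mem_powersetCard, mem_sdiff, Prod.exists]
    exact ⟨A ∩ B, A ∩ T, ⟨⟨inter_subset_right, hc⟩, hL, hcon⟩,
      ((decomp (h.opt.1.1 A hA)).1 heA).symm⟩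
  have hmix : ∀ A ∈ N, ∀ A' ∈ U, A' ∉ O → t + 1 ≤ (A ∩ A').card := by
    intro A hA A' hA' hA'O
    obtain ⟨I, C, hI, hIc, hC, rfl⟩ := hNmem A hA
    by_contra hcon
    obtain ⟨h1, h2, h3, h4⟩ := confl_old h hi (hH hC) hI hIc hA' (by omega)
    have hc : (A' ∩ B).card = i := by omega
    rw [hc] at h4
    exact hint C hC (A' ∩ T) (hOld A' hA' h1 hc h4 hA'O) h3
  have hnew : ∀ A ∈ N, ∀ A' ∈ N, t + 1 ≤ (A ∩ A').card := by
    intro A hA A' hA'
    obtain ⟨I, C, hI, hIc, hC, rfl⟩ := hNmem A hA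
    obtain ⟨J, D, hJ, hJc, hD, rfl⟩ := hNmem A' hA'
    by_contra hcon
    obtain ⟨-, h2⟩ := confl_new h hi hi (hH hC) (hH hD) hI hIc hJ hJc (by omega)
    exact hint C hC D hD h2
  have hfam : Fam (insert e (B ∪ T)) (t + 1) ((U \ O) ∪ N) := by
    refine ⟨?_, ?_⟩
    · intro A hA
      rcases mem_union.1 hA with hA | hA
      · exact h.opt.1.1 A (mem_sdiff.1 hA).1
      · obtain ⟨I, C, hI, hIc, hC, rfl⟩ := hNmem A hA
        exact insert_subset_insert _ (union_subset_union hI (hLT C (hH hC)))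
    · intro A hA A' hA'
      rcases mem_union.1 hA with hA | hA <;> rcases mem_union.1 hA' with hA' | hA'
      · exact h.opt.1.2 A (mem_sdiff.1 hA).1 A' (mem_sdiff.1 hA').1
      · rw [inter_comm]
        exact hmix A' hA' A (mem_sdiff.1 hA).1 (mem_sdiff.1 hA).2
      · exact hmix A hA A' (mem_sdiff.1 hA').1 (mem_sdiff.1 hA').2
      · exact hnew A hA A' hA'
  have hopt := h.opt.2 _ hfam
  rw [← hn] at hopt
  have hd : Disjoint (U \ O) N := (hNU.mono_right sdiff_subset).symm
  have hW1 : W n t ((U \ O) ∪ N) = W n t (U \ O) + W n t N := by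
    unfold W
    exact sum_union hd
  have hW2 : W n t U = W n t (U \ O) + W n t O := by
    unfold W
    exact (sum_sdiff hOU).symm
  have hWN : W n t N = B.card.choose (i - 1) * V n t i H :=
    W_New h.hBT h.heB h.heT (fun C hC => hLT C (hH hC)) hi
  have hWO : W n t O = B.card.choose i * V n t i (L B T e U i \ H) :=
    W_Old h.hBT (fun C hC => hLT C (mem_sdiff.1 hC).1)
  have hV : V n t i (L B T e U i) = V n t i (L B T e U i \ H) + V n t i H := by
    unfold V
    exact (sum_sdiff hH).symm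
  have hle : B.card.choose (i - 1) * V n t i H ≤ B.card.choose i * V n t i (L B T e U i \ H) := by
    rw [← hWN, ← hWO]; omega
  have hch : B.card.choose (i - 1) * (B.card + 1 - t) = B.card.choose i * (B.card + t + 1) := by
    have h1 := Nat.choose_succ_right_eq B.card (i - 1)
    rw [Nat.sub_add_cancel hi] at h1
    have h2 : B.card + 1 - t = 2 * (B.card - (i - 1)) := by omega
    rw [h2, ← hij]
    calc B.card.choose (i - 1) * (2 * (B.card - (i - 1)))
        = 2 * (B.card.choose (i - 1) * (B.card - (i - 1))) := by ring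
      _ = 2 * (B.card.choose i * i) := by rw [h1]
      _ = B.card.choose i * (2 * i) := by ring
  have hpos : 0 < B.card.choose i := Nat.choose_pos hil
  have hfin : (B.card + t + 1) * V n t i H ≤ (B.card + 1 - t) * V n t i (L B T e U i \ H) := by
    refine Nat.le_of_mul_le_mul_left ?_ hpos
    calc B.card.choose i * ((B.card + t + 1) * V n t i H)
        = (B.card.choose i * (B.card + t + 1)) * V n t i H := by ring
      _ = (B.card.choose (i - 1) * (B.card + 1 - t)) * V n t i H := by rw [hch]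
      _ = (B.card + 1 - t) * (B.card.choose (i - 1) * V n t i H) := by ring
      _ ≤ (B.card + 1 - t) * (B.card.choose i * V n t i (L B T e U i \ H)) :=
          Nat.mul_le_mul_left _ hle
      _ = B.card.choose i * ((B.card + 1 - t) * V n t i (L B T e U i \ H)) := by ring
  rw [hV, Nat.mul_add]
  omega

end Pool.Agent.H37.WK
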