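import Pool.Agent.H37.WK.Defs

/-!
Module Num.  Elementary facts on `sb` and the numerical inequality.

Proof of `num`.  Let `s = Σ_{j<t} C(b,j)` and `s' = Σ_{j<t-1} C(b,j)`.  For `b ≥ b'` both
`sb (t-1) b ≥ sb (t-1) b'`, so `(b+b') (sb (t-1) b + sb (t-1) b') ≤ 2 (b sb (t-1) b + b' sb (t-1) b')`
(difference `(b-b')(sb (t-1) b - sb (t-1) b')`).  So it suffices that `G b + G b' > 0` in `ℤ`, with
`G b = t sb t b - b sb (t-1) b`.  As `b C(b,j) = (j+1) C(b,j+1) + j C(b,j)`,
`G b = C(b,t-1) + Σ_{j<t-1} (t - 2 j) C(b,j) ≥ C(b,t-1) - t Σ_{j<t-1} C(b,j)`.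
Let `b` be the larger one, so `2 b ≥ 4 t^3 - t - 1`.  `Σ_{j<t-1} C(b',j) ≤ Σ_{j<t-1} C(b,j) ≤
(t-1) C(b,t-2)` (as `b ≥ 2 (t-2)`) and `(t-1) C(b,t-1) = (b-t+2) C(b,t-2)`, so (for `t ≥ 2`)
`(t-1) (G b + G b') ≥ (b - t + 2 - 2 t (t-1)^2) C(b,t-2) > 0`.  For `t = 1` the claim is trivial
(`sb 0 = 0`).
-/

open Finset

namespace Pool.Agent.H37.WK

lemma sb_pos {t : ℕ} (ht : 1 ≤ t) (b : ℕ) : 0 < sb t b := by
  unfold sb
  calc 0 < b.choose 0 := by simp
    _ ≤ ∑ j ∈ range t, b.choose j :=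
      single_le_sum (f := fun j => b.choose j) (fun _ _ => Nat.zero_le _) (by simp; omega)

lemma sb_mono {t b c : ℕ} (h : b ≤ c) : sb t b ≤ sb t c := by
  unfold sb
  exact sum_le_sum fun j _ => Nat.choose_le_choose j h

private lemma num_sb_succ_top (u b : ℕ) : sb (u + 1) b = sb u b + b.choose u := by
  unfold sb
  rw [sum_range_succ]

lemma sb_succ {t : ℕ} (ht : 1 ≤ t) (b : ℕ) : sb t (b + 1) = sb t b + sb (t - 1) b := by
  obtain ⟨u, rfl⟩ : ∃ u, t = u + 1 := ⟨t - 1, by omega⟩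
  rw [Nat.add_sub_cancel]
  induction u with
  | zero => simp [sb]
  | succ u ih =>
    rw [num_sb_succ_top (u + 1) (b + 1), ih (by omega), num_sb_succ_top (u + 1) b,
      Nat.choose_succ_succ, num_sb_succ_top u b]
    ring

private lemma num_mul_choose (b j : ℕ) :
    b * b.choose j = (j + 1) * b.choose (j + 1) + j * b.choose j := by
  have h := Nat.choose_succ_right_eq b j
  rcases le_or_gt j b with hj | hj
  · obtain ⟨c, rfl⟩ := Nat.exists_eq_add_of_le hj
    rw [Nat.add_sub_cancel_left] at h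
    nlinarith
  · rw [Nat.choose_eq_zero_of_lt hj, Nat.choose_eq_zero_of_lt (by omega)]
    simp

private lemma num_step (u b : ℕ) :
    b * sb u b + b.choose u ≤ (u + 1) * sb (u + 1) b + u * sb u b := by
  have h : ∀ u : ℕ, b * sb u b = u * b.choose u + 2 * ∑ j ∈ range u, j * b.choose j := by
    intro u
    induction u with
    | zero => simp [sb]
    | succ u ih =>
      rw [num_sb_succ_top, Nat.mul_add, ih, num_mul_choose, sum_range_succ]
      ring
  have h2 : ∑ j ∈ range u, j * b.choose j ≤ u * sb u b := by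
    unfold sb
    rw [mul_sum]
    exact sum_le_sum fun j hj => Nat.mul_le_mul_right _ (mem_range.1 hj).le
  rw [h u, num_sb_succ_top]
  nlinarith

private lemma num_top (v b : ℕ) (h : 2 * v ≤ b) : sb (v + 1) b ≤ (v + 1) * b.choose v := by
  induction v with
  | zero => simp [sb]
  | succ v ih =>
    rw [num_sb_succ_top]
    have h1 := ih (by omega)
    have h2 : b.choose v ≤ b.choose (v + 1) :=
      Nat.choose_le_succ_of_lt_half_left (by omega)
    nlinarith

private lemma num_aux {t b b' : ℕ} (ht : 1 ≤ t) (h : 4 * t ^ 3 ≤ b + b' + t + 1) (hb : b' ≤ b) :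
    (b + b') * (sb (t - 1) b + sb (t - 1) b') < 2 * t * (sb t b + sb t b') := by
  obtain ⟨u, rfl⟩ : ∃ u, t = u + 1 := ⟨t - 1, by omega⟩
  rw [Nat.add_sub_cancel]
  have hp := sb_pos (t := u + 1) (by omega) b
  rcases Nat.eq_zero_or_pos u with rfl | hu
  · have : ∀ c, sb 0 c = 0 := fun c => by simp [sb]
    rw [this, this]
    nlinarith [sb_pos (t := 0 + 1) (by omega) b']
  obtain ⟨v, rfl⟩ : ∃ v, u = v + 1 := ⟨u - 1, by omega⟩
  have h1 := num_step (v + 1) b
  have h2 := num_step (v + 1) b'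
  have h3 : sb (v + 1) b' ≤ sb (v + 1) b := sb_mono hb
  have hb2 : 2 * (v + 1) ^ 3 + v < b := by
    have : 4 * (v + 1 + 1) ^ 3 ≤ 2 * b + v + 3 := by omega
    nlinarith [sq_nonneg v]
  have h4 := num_top v b (by nlinarith [sq_nonneg v, Nat.zero_le ((v + 1) ^ 3)])
  have h5 := num_mul_choose b v
  have h6 : 0 < b.choose v := Nat.choose_pos (by
    have := Nat.zero_le ((v + 1) ^ 3)
    omega)
  have key : 2 * (v + 1) * sb (v + 1) b < b.choose (v + 1) := by
    have h7 : (v + 1) * (2 * (v + 1) * sb (v + 1) b) < (v + 1) * b.choose (v + 1) := by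
      have h8 : (v + 1) * (2 * (v + 1) * sb (v + 1) b) ≤ 2 * (v + 1) ^ 3 * b.choose v := by
        calc (v + 1) * (2 * (v + 1) * sb (v + 1) b)
            ≤ (v + 1) * (2 * (v + 1) * ((v + 1) * b.choose v)) := by gcongr
          _ = 2 * (v + 1) ^ 3 * b.choose v := by ring
      have h9 : (2 * (v + 1) ^ 3 + v) * b.choose v < b * b.choose v :=
        Nat.mul_lt_mul_of_pos_right hb2 h6
      have h10 : (2 * (v + 1) ^ 3 + v) * b.choose v =
        2 * (v + 1) ^ 3 * b.choose v + v * b.choose v := by ring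
      omega
    exact Nat.lt_of_mul_lt_mul_left h7
  have h11 : (b + b') * (sb (v + 1) b + sb (v + 1) b') ≤
      2 * (b * sb (v + 1) b + b' * sb (v + 1) b') := by
    nlinarith [mul_nonneg (Nat.zero_le (b - b')) (Nat.zero_le (sb (v + 1) b - sb (v + 1) b')),
      Nat.mul_le_mul hb h3, mul_le_mul_of_nonneg_left h3 (Nat.zero_le b)]
  nlinarith [Nat.mul_le_mul_left (v + 1) h3]

lemma num {t b b' : ℕ} (ht : 1 ≤ t) (h : 4 * t ^ 3 ≤ b + b' + t + 1) :
    (b + b') * (sb (t - 1) b + sb (t - 1) b') < 2 * t * (sb t b + sb t b') := by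
  rcases le_total b' b with hb | hb
  · exact num_aux ht h hb
  · have := num_aux (b := b') (b' := b) ht (by omega) hb
    rwa [Nat.add_comm b' b, Nat.add_comm (sb (t - 1) b'), Nat.add_comm (sb t b')] at this

end Pool.Agent.H37.WK
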