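import Pool.Agent.H37.WK.Conf

/-!
Module Off.  The levels `i ≠ j`, `i + j = l + t + 1`.

`ineq_off`: the family `(U \ Old j (L j)) ∪ New i (L i)` lies in `Fam _ (t+1)`: members of `U` meet
the new sets in at least `t + 1` elements unless they are in `Old j (L j)` (`confl_old`), new sets
meet each other by `confl_new` (conflict only for `i + i = l + t + 1`, but `i ≠ j`).  `Old j (L j) ⊆ U`,
the new sets are not in `U` (they would put the tail in `Y i`), so optimality gives
`W (New i (L i)) ≤ W (Old j (L j))`.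

`off`: with `c_i = C(l,i-1) V_i`, `ineq_off` for `(i,j)` and `(j,i)` (if `j > l`, `Old j = ∅` since
`C(l,j) = 0`), `C(l,i-1) V_i ≤ C(l,j) V_j`, `C(l,j-1) V_j ≤ C(l,i) V_i`.  If `V_i > 0` (i.e. `L i ≠ ∅`)
then `V_j > 0`, `j ≤ l`, and `C(l,i-1) C(l,j-1) ≤ C(l,i) C(l,j)`; but
`C(l,i-1) (l-i+1) = i C(l,i)` and the same for `j`, with `l - i + 1 = j - t`, `l - j + 1 = i - t`, so
`C(l,i-1) C(l,j-1) (j-t)(i-t) = i j C(l,i) C(l,j)` and `i j > (i-t)(j-t)`: contradiction.
-/

open Finset

namespace Pool.Agent.H37.WK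

variable {B T : Finset ℕ} {e t : ℕ} {U : Finset (Finset ℕ)}

private lemma off_L_sub_X {i : ℕ} {C : Finset ℕ} (hC : C ∈ L B T e U i) : C ∈ X B T U i :=
  (Finset.mem_sdiff.1 hC).1

private lemma off_L_sub_T {i : ℕ} {C : Finset ℕ} (hC : C ∈ L B T e U i) : C ⊆ T := by
  have h := off_L_sub_X hC
  unfold X at h
  exact Finset.mem_powerset.1 (Finset.mem_filter.1 h).1

private lemma off_Old_sub (h : Ctx B T e t U) {j : ℕ} : Old B j (L B T e U j) ⊆ U := by
  intro A hA
  unfold Old at hA
  obtain ⟨p, hp, rfl⟩ := Finset.mem_image.1 hA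
  obtain ⟨h1, h2⟩ := Finset.mem_product.1 hp
  obtain ⟨h3, h4⟩ := Finset.mem_powersetCard.1 h1
  exact (mem_X h (off_L_sub_X h2)).2.2 _ h3 h4

private lemma off_New_mem {i : ℕ} {A : Finset ℕ} (hA : A ∈ New B e i (L B T e U i)) :
    ∃ I ⊆ B, I.card = i - 1 ∧ ∃ C ∈ L B T e U i, A = insert e (I ∪ C) := by
  unfold New at hA
  obtain ⟨p, hp, rfl⟩ := Finset.mem_image.1 hA
  obtain ⟨h1, h2⟩ := Finset.mem_product.1 hp
  obtain ⟨h3, h4⟩ := Finset.mem_powersetCard.1 h1
  exact ⟨p.1, h3, h4, p.2, h2, rfl⟩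

private lemma off_New_disj {i : ℕ} {A : Finset ℕ} (hA : A ∈ New B e i (L B T e U i)) :
    A ∉ U := by
  intro hAU
  obtain ⟨I, hI, hIc, C, hC, rfl⟩ := off_New_mem hA
  have h2 := (Finset.mem_sdiff.1 hC).2
  apply h2
  unfold Y
  simp only [Finset.mem_filter]
  exact ⟨Finset.mem_powerset.2 (off_L_sub_T hC), I, Finset.mem_powersetCard.2 ⟨hI, hIc⟩, hAU⟩

private lemma off_W_union {n t : ℕ} {P Q : Finset (Finset ℕ)} (hPQ : Disjoint P Q) :
    W n t (P ∪ Q) = W n t P + W n t Q := by
  unfold W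
  exact Finset.sum_union hPQ

private lemma off_V_pos {n t i : ℕ} (ht : 1 ≤ t) {H : Finset (Finset ℕ)} :
    0 < V n t i H ↔ H.Nonempty := by
  unfold V
  constructor
  · intro h
    by_contra hne
    rw [Finset.not_nonempty_iff_eq_empty] at hne
    rw [hne] at h
    simp at h
  · intro h
    exact Finset.sum_pos (fun C _ => sb_pos ht _) h

lemma ineq_off (h : Ctx B T e t U) {i j : ℕ} (hi : 1 ≤ i) (hij : i + j = B.card + t + 1)
    (hne : i ≠ j) :
    B.card.choose (i - 1) * V (insert e (B ∪ T)).card t i (L B T e U i)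
      ≤ B.card.choose j * V (insert e (B ∪ T)).card t j (L B T e U j) := by
  rw [← W_New h.hBT h.heB h.heT (fun C hC => off_L_sub_T hC) hi,
    ← W_Old h.hBT (fun C hC => off_L_sub_T hC)]
  set O := Old B j (L B T e U j) with hO
  set N := New B e i (L B T e U i) with hN
  have hOU : O ⊆ U := off_Old_sub h
  have hNU : ∀ A ∈ N, A ∉ U := fun A hA => off_New_disj hA
  -- a new set meets a remaining old set
  have key1 : ∀ A ∈ N, ∀ A' ∈ U, A' ∉ O → t + 1 ≤ (A ∩ A').card := by
    intro A hA A' hA' hnO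
    by_contra hlt
    push Not at hlt
    obtain ⟨I, hI, hIc, C, hC, rfl⟩ := off_New_mem hA
    obtain ⟨c1, c2, c3, c4⟩ := confl_old h hi hC hI (by omega) hA' hlt
    have hj : (A' ∩ B).card = j := by omega
    apply hnO
    rw [hO]
    unfold Old
    rw [Finset.mem_image]
    rw [hj] at c4
    refine ⟨(A' ∩ B, A' ∩ T), Finset.mem_product.2 ⟨Finset.mem_powersetCard.2
      ⟨Finset.inter_subset_right, hj⟩, c4⟩, ?_⟩
    exact ((decomp (h.opt.1.1 A' hA')).1 c1).symm
  have key2 : ∀ A ∈ N, ∀ A' ∈ N, t + 1 ≤ (A ∩ A').card := by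
    intro A hA A' hA'
    by_contra hlt
    push Not at hlt
    obtain ⟨I, hI, hIc, C, hC, rfl⟩ := off_New_mem hA
    obtain ⟨J, hJ, hJc, D, hD, rfl⟩ := off_New_mem hA'
    obtain ⟨c1, c2⟩ := confl_new h hi hi hC hD hI (by omega) hJ (by omega) hlt
    omega
  have hfam : Fam (insert e (B ∪ T)) (t + 1) ((U \ O) ∪ N) := by
    constructor
    · intro A hA
      rcases Finset.mem_union.1 hA with hA | hA
      · exact h.opt.1.1 A (Finset.mem_sdiff.1 hA).1
      · obtain ⟨I, hI, hIc, C, hC, rfl⟩ := off_New_mem hA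
        exact Finset.insert_subset_insert _ (Finset.union_subset_union hI (off_L_sub_T hC))
    · intro A hA A' hA'
      rcases Finset.mem_union.1 hA with hA | hA <;> rcases Finset.mem_union.1 hA' with hA' | hA'
      · exact h.opt.1.2 A (Finset.mem_sdiff.1 hA).1 A' (Finset.mem_sdiff.1 hA').1
      · rw [Finset.inter_comm]
        exact key1 A' hA' A (Finset.mem_sdiff.1 hA).1 (Finset.mem_sdiff.1 hA).2
      · exact key1 A hA A' (Finset.mem_sdiff.1 hA').1 (Finset.mem_sdiff.1 hA').2
      · exact key2 A hA A' hA'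
  have hW := h.opt.2 _ hfam
  have hd1 : Disjoint (U \ O) N := by
    rw [Finset.disjoint_left]
    intro A hA hA'
    exact hNU A hA' (Finset.mem_sdiff.1 hA).1
  rw [off_W_union hd1] at hW
  have hU : W (insert e (B ∪ T)).card t U = W (insert e (B ∪ T)).card t (U \ O)
      + W (insert e (B ∪ T)).card t O := by
    rw [← off_W_union Finset.sdiff_disjoint, Finset.sdiff_union_of_subset hOU]
  omega

lemma off (h : Ctx B T e t U) {i j : ℕ} (hi : 1 ≤ i) (hij : i + j = B.card + t + 1)
    (hne : i ≠ j) : L B T e U i = ∅ := by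
  by_contra hLi
  replace hLi := Finset.nonempty_iff_ne_empty.2 hLi
  have ht := h.ht
  obtain ⟨C, hC⟩ := hLi
  have hil : i ≤ B.card := (mem_X h (off_L_sub_X hC)).2.1
  have hVi : 0 < V (insert e (B ∪ T)).card t i (L B T e U i) := (off_V_pos ht).2 ⟨C, hC⟩
  have h1 := ineq_off h hi hij hne
  have hj : 1 ≤ j := by omega
  have h2 := ineq_off h hj (by omega : j + i = B.card + t + 1) (Ne.symm hne)
  set Vi := V (insert e (B ∪ T)).card t i (L B T e U i)
  set Vj := V (insert e (B ∪ T)).card t j (L B T e U j)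
  have p1 : 0 < B.card.choose (i - 1) := Nat.choose_pos (by omega)
  have p2 : 0 < B.card.choose j * Vj := lt_of_lt_of_le (Nat.mul_pos p1 hVi) h1
  have p3 : 0 < B.card.choose j := Nat.pos_of_mul_pos_right p2
  have hVj : 0 < Vj := Nat.pos_of_mul_pos_left p2
  have hjl : j ≤ B.card := by
    by_contra hlt
    push Not at hlt
    rw [Nat.choose_eq_zero_of_lt hlt] at p3
    exact lt_irrefl 0 p3
  have p4 : 0 < B.card.choose i := Nat.choose_pos hil
  have e1 : B.card.choose i * i = B.card.choose (i - 1) * (j - t) := by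
    have := Nat.choose_succ_right_eq B.card (i - 1)
    rw [show i - 1 + 1 = i by omega, show B.card - (i - 1) = j - t by omega] at this
    exact this
  have e2 : B.card.choose j * j = B.card.choose (j - 1) * (i - t) := by
    have := Nat.choose_succ_right_eq B.card (j - 1)
    rw [show j - 1 + 1 = j by omega, show B.card - (j - 1) = i - t by omega] at this
    exact this
  have m1 : (B.card.choose (i - 1) * B.card.choose (j - 1)) * (Vi * Vj)
      ≤ (B.card.choose i * B.card.choose j) * (Vi * Vj) := by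
    have := Nat.mul_le_mul h1 h2
    calc (B.card.choose (i - 1) * B.card.choose (j - 1)) * (Vi * Vj)
        = (B.card.choose (i - 1) * Vi) * (B.card.choose (j - 1) * Vj) := by ring
      _ ≤ (B.card.choose j * Vj) * (B.card.choose i * Vi) := this
      _ = _ := by ring
  have m2 := Nat.le_of_mul_le_mul_right m1 (Nat.mul_pos hVi hVj)
  have m3 : (B.card.choose i * B.card.choose j) * (i * j)
      = (B.card.choose (i - 1) * B.card.choose (j - 1)) * ((j - t) * (i - t)) := by
    calc (B.card.choose i * B.card.choose j) * (i * j)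
        = (B.card.choose i * i) * (B.card.choose j * j) := by ring
      _ = (B.card.choose (i - 1) * (j - t)) * (B.card.choose (j - 1) * (i - t)) := by rw [e1, e2]
      _ = _ := by ring
  have m4 : (j - t) * (i - t) < i * j := by
    calc (j - t) * (i - t) ≤ j * (i - t) := Nat.mul_le_mul_right _ (Nat.sub_le _ _)
      _ < j * i := Nat.mul_lt_mul_of_pos_left (by omega) (by omega)
      _ = i * j := by ring
  have m5 : (B.card.choose i * B.card.choose j) * (i * j)
      ≤ (B.card.choose i * B.card.choose j) * ((j - t) * (i - t)) := by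
    rw [m3]
    exact Nat.mul_le_mul_right _ m2
  have m6 := Nat.le_of_mul_le_mul_left m5 (Nat.mul_pos p4 p3)
  omega

end Pool.Agent.H37.WK
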