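import Pool.Agent.H37.WK.Defs

/-!
Module Shift.  The classical shift preserves sizes and `s`-intersecting families.

`sh U a b A` replaces `a` by `b` in `A` unless this is impossible or the result is already in `U`.
(1) `sh U a b` is injective on `U`; (2) it preserves cards (`a ∈ A`, `b ∉ A`);
(3) `Fam V s U → Fam V s (shiftFam U a b)` for `a ≠ b`, `b ∈ V`: for two images `A', B'` of `A, B`:
if both moved, `A' ∩ B' = insert b ((A ∩ B).erase a)`; if none moved, clear; if only `A` moved and
`|A' ∩ B| < s` then `a ∈ B`, `b ∉ B` (as `A' ∩ B ⊇ (A ∩ B).erase a`, and `b ∈ B` would compensate),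
so `B` did not move only because `B₁ = insert b (B.erase a) ∈ U`; now `A ∩ B₁` has at least `s`
elements and `|A' ∩ B| = |A ∩ B₁|` (both equal `|(A ∩ B).erase a|`).
-/

open Finset

namespace Pool.Agent.H37.WK

/-- The shift of one set. -/
def sh (U : Finset (Finset ℕ)) (a b : ℕ) (A : Finset ℕ) : Finset ℕ :=
  if a ∈ A ∧ b ∉ A ∧ insert b (A.erase a) ∉ U then insert b (A.erase a) else A

/-- The shift of a family. -/
def shiftFam (U : Finset (Finset ℕ)) (a b : ℕ) : Finset (Finset ℕ) := U.image (sh U a b)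

lemma sh_injOn (U : Finset (Finset ℕ)) {a b : ℕ} (hab : a ≠ b) :
    Set.InjOn (sh U a b) (U : Set (Finset ℕ)) := by
  intro A hA B hB h
  unfold sh at h
  by_cases h1 : a ∈ A ∧ b ∉ A ∧ insert b (A.erase a) ∉ U
  · rw [if_pos h1] at h
    by_cases h2 : a ∈ B ∧ b ∉ B ∧ insert b (B.erase a) ∉ U
    · rw [if_pos h2] at h
      have e : ∀ C : Finset ℕ, a ∈ C → b ∉ C → insert a ((insert b (C.erase a)).erase b) = C := by
        intro C ha hb
        rw [Finset.erase_insert (fun hh => hb (Finset.mem_of_mem_erase hh)), Finset.insert_erase ha]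
      rw [← e A h1.1 h1.2.1, ← e B h2.1 h2.2.1, h]
    · rw [if_neg h2] at h
      rw [h] at h1
      exact absurd hB h1.2.2
  · rw [if_neg h1] at h
    by_cases h2 : a ∈ B ∧ b ∉ B ∧ insert b (B.erase a) ∉ U
    · rw [if_pos h2] at h
      rw [← h] at h2
      exact absurd hA h2.2.2
    · rw [if_neg h2] at h
      exact h

lemma sh_card (U : Finset (Finset ℕ)) {a b : ℕ} (hab : a ≠ b) (A : Finset ℕ) :
    (sh U a b A).card = A.card := by
  unfold sh
  split_ifs with h
  · rw [Finset.card_insert_of_notMem (fun hh => h.2.1 (Finset.mem_of_mem_erase hh)),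
      Finset.card_erase_of_mem h.1]
    have := Finset.card_pos.mpr ⟨a, h.1⟩
    omega
  · rfl

lemma shift_aux {V : Finset ℕ} {s : ℕ} {U : Finset (Finset ℕ)} (hU : Fam V s U) {a b : ℕ}
    (hab : a ≠ b) {A B : Finset ℕ} (hA : A ∈ U) (hB : B ∈ U) (ha : a ∈ A) (hb : b ∉ A)
    (h2 : ¬ (a ∈ B ∧ b ∉ B ∧ insert b (B.erase a) ∉ U)) :
    s ≤ (insert b (A.erase a) ∩ B).card := by
  have h0 := hU.2 A hA B hB
  by_cases haB : a ∈ B
  · by_cases hbB : b ∈ B
    · have e : insert b (A.erase a) ∩ B = insert b ((A ∩ B).erase a) := by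
        ext x
        simp only [Finset.mem_inter, Finset.mem_insert, Finset.mem_erase]
        constructor
        · rintro ⟨h3 | h3, h4⟩
          · exact Or.inl h3
          · exact Or.inr ⟨h3.1, h3.2, h4⟩
        · rintro (h3 | h3)
          · exact ⟨Or.inl h3, h3 ▸ hbB⟩
          · exact ⟨Or.inr ⟨h3.1, h3.2.1⟩, h3.2.2⟩
      rw [e, Finset.card_insert_of_notMem (fun hh =>
        hb (Finset.mem_inter.mp (Finset.mem_of_mem_erase hh)).1),
        Finset.card_erase_of_mem (Finset.mem_inter.mpr ⟨ha, haB⟩)]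
      omega
    · have h3 : insert b (B.erase a) ∈ U := by
        by_contra hcon
        exact h2 ⟨haB, hbB, hcon⟩
      have h4 := hU.2 A hA _ h3
      have e : A ∩ insert b (B.erase a) = insert b (A.erase a) ∩ B := by
        ext x
        simp only [Finset.mem_inter, Finset.mem_insert, Finset.mem_erase]
        constructor
        · rintro ⟨h5, h6 | h6⟩
          · exact absurd (h6 ▸ h5) hb
          · exact ⟨Or.inr ⟨h6.1, h5⟩, h6.2⟩
        · rintro ⟨h5 | h5, h6⟩
          · exact absurd (h5 ▸ h6) hbB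
          · exact ⟨h5.2, Or.inr ⟨h5.1, h6⟩⟩
      rwa [e] at h4
  · refine h0.trans (Finset.card_le_card ?_)
    intro x hx
    rw [Finset.mem_inter] at hx
    rw [Finset.mem_inter, Finset.mem_insert, Finset.mem_erase]
    refine ⟨Or.inr ⟨?_, hx.1⟩, hx.2⟩
    rintro rfl
    exact haB hx.2

lemma shift_fam {V : Finset ℕ} {s : ℕ} {U : Finset (Finset ℕ)} (hU : Fam V s U) {a b : ℕ}
    (hab : a ≠ b) (hb : b ∈ V) : Fam V s (shiftFam U a b) := by
  constructor
  · intro A' hA'
    obtain ⟨A, hA, rfl⟩ := Finset.mem_image.mp hA'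
    unfold sh
    split_ifs with h
    · intro x hx
      rcases Finset.mem_insert.mp hx with rfl | hx
      · exact hb
      · exact hU.1 A hA (Finset.mem_of_mem_erase hx)
    · exact hU.1 A hA
  · intro A' hA' B' hB'
    obtain ⟨A, hA, rfl⟩ := Finset.mem_image.mp hA'
    obtain ⟨B, hB, rfl⟩ := Finset.mem_image.mp hB'
    unfold sh
    by_cases h1 : a ∈ A ∧ b ∉ A ∧ insert b (A.erase a) ∉ U
    · by_cases h2 : a ∈ B ∧ b ∉ B ∧ insert b (B.erase a) ∉ U
      · rw [if_pos h1, if_pos h2]
        have h0 := hU.2 A hA B hB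
        have e : insert b (A.erase a) ∩ insert b (B.erase a) = insert b ((A ∩ B).erase a) := by
          ext x
          simp only [Finset.mem_inter, Finset.mem_insert, Finset.mem_erase]
          tauto
        rw [e, Finset.card_insert_of_notMem (fun hh =>
          h1.2.1 (Finset.mem_inter.mp (Finset.mem_of_mem_erase hh)).1),
          Finset.card_erase_of_mem (Finset.mem_inter.mpr ⟨h1.1, h2.1⟩)]
        omega
      · rw [if_pos h1, if_neg h2]
        exact shift_aux hU hab hA hB h1.1 h1.2.1 h2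
    · by_cases h2 : a ∈ B ∧ b ∉ B ∧ insert b (B.erase a) ∉ U
      · rw [if_neg h1, if_pos h2, Finset.inter_comm]
        exact shift_aux hU hab hB hA h2.1 h2.2.1 h1
      · rw [if_neg h1, if_neg h2]
        exact hU.2 A hA B hB

end Pool.Agent.H37.WK
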