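import Pool.Agent.H37.WK.Num

/-!
Module Star.  From `num` and `sb_succ`: with `S = sb t b + sb t b'` and
`S' = sb (t-1) b + sb (t-1) b'` the claim is `(l + 1 - t) (S + S') < (l + t + 1) S`, i.e.
`(l + 1 - t) S' < 2 t S`, and `l + 1 - t ≤ b + b'`.
-/

open Finset

namespace Pool.Agent.H37.WK

lemma star {n t l b b' : ℕ} (ht : 1 ≤ t) (hn : 4 * t ^ 3 ≤ n) (hb : b + b' + t + 1 = n)
    (hl : l + 2 ≤ n) (hl2 : t + 1 ≤ l) :
    (l + 1 - t) * (sb t (b + 1) + sb t (b' + 1)) < (l + t + 1) * (sb t b + sb t b') := by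
  obtain ⟨k, hk⟩ : ∃ k, l + 1 = k + t := ⟨l + 1 - t, by omega⟩
  have h1 : l + 1 - t = k := by omega
  have h2 : l + t + 1 = k + 2 * t := by omega
  have h3 : k ≤ b + b' := by omega
  have h4 := num (b := b) (b' := b') ht (by omega)
  rw [h1, h2, sb_succ ht, sb_succ ht]
  have h5 := Nat.mul_le_mul_right (sb (t - 1) b + sb (t - 1) b') h3
  nlinarith

end Pool.Agent.H37.WK
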