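import Mathlib

/-!
Module Trick.  The two intersecting subfamilies.

`XX` is an up-set of subsets of `T`, `LL ⊆ XX`, and `LL` contains every `C ∈ XX` whose complement
`T \ C` is in `XX`.  `v` is a weight of sizes.  `q < p`, and every intersecting `H ⊆ LL` satisfies
`(p + q) V(H) ≤ q V(LL)`.  Then `LL = ∅`.

Proof.  Fix `a ∈ T`.  `P = {C ∈ LL : T \ C ∈ XX}` (closed under complement), `F = LL \ P`,
`H1 = F ∪ {C ∈ P : a ∈ C}`,
`H2 = F ∪ {C ∈ P : a ∈ C, C.erase a ∈ XX} ∪ {C ∈ P : a ∉ C, (T \ C).erase a ∉ XX}`.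
Both are intersecting: if `C ∈ F` and `D ∈ XX` are disjoint then `D ⊆ T \ C`, so `T \ C ∈ XX`,
contradiction (also for `D = C`, `C = ∅`); in `H1` two members of `P` share `a`; in `H2`, if `C ∈ P`,
`a ∉ C`, `(T \ C).erase a ∉ XX`, and `D` is disjoint from `C`, then `D.erase a ⊆ (T \ C).erase a`, so
`D.erase a ∉ XX`, but `D.erase a ∈ XX` for `D` in the second part and `D.erase a = D ∈ XX` for `D` in
the third part.
Let `P1 = {C ∈ P : a ∈ C, C.erase a ∈ XX}`, `P0 = {C ∈ P : a ∈ C, C.erase a ∉ XX}`.  The complement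
maps `P0` onto the third part of `H2`, and `{C ∈ P : a ∈ C}` onto `{C ∈ P : a ∉ C}`.  With
`S(Q) = Σ_{C ∈ Q} (v |C| + v (|T| - |C|))`:
`V(H1) + V(H2) = 2 V(F) + 2 V(P1) + S(P0)`, `V(LL) = V(F) + S(P1) + S(P0)`.  Hence
`(p + q) (2 V(F) + 2 V(P1) + S(P0)) ≤ 2 q (V(F) + S(P1) + S(P0))`, i.e.
`2 p V(F) + 2 (p + q) V(P1) + (p - q) S(P0) ≤ 2 q S(P1)`.
The map `C ↦ insert a (T \ C)` is an involution of `P1` (`insert a (T \ C) ⊇ T \ C ∈ XX`, its
complement is `C.erase a ∈ XX`, so it is in `LL`; it contains `a`, and without `a` it is `T \ C`).  So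
`2 V(P1) = Σ_{P1} (v c + v (N + 1 - c))`, `2 S(P1) = Σ_{P1} (v c + v (N+1-c) + v (N-c) + v (c-1))` with
`c = |C|`, `N = |T|`, and `hstar` gives `2 q S(P1) ≤ 2 (p + q) V(P1)` with strict inequality if
`P1 ≠ ∅`.  So `P1 = ∅`, `V(F) = 0`, `S(P0) = 0`, and `F = P0 = ∅` by positivity, `LL = ∅`.
-/

open Finset

namespace Pool.Agent.H37.WK

private lemma trick_sum_compl (T : Finset ℕ) (P Q : Finset (Finset ℕ)) (v : ℕ → ℕ)
    (hP : ∀ C ∈ P, C ⊆ T) (hQ : ∀ C ∈ Q, C ⊆ T) (h1 : ∀ C ∈ P, T \ C ∈ Q)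
    (h2 : ∀ C ∈ Q, T \ C ∈ P) :
    ∑ C ∈ P, v C.card = ∑ C ∈ Q, v (T.card - C.card) := by
  refine Finset.sum_nbij' (fun C => T \ C) (fun C => T \ C) h1 h2 ?_ ?_ ?_
  · intro C hC
    exact Finset.sdiff_sdiff_eq_self (hP C hC)
  · intro C hC
    exact Finset.sdiff_sdiff_eq_self (hQ C hC)
  · intro C hC
    have hCT := hP C hC
    rw [Finset.card_sdiff_of_subset hCT]
    have := Finset.card_le_card hCT
    congr 1
    omega

lemma trick (T : Finset ℕ) (XX LL : Finset (Finset ℕ)) (v : ℕ → ℕ) (p q a : ℕ)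
    (hX : ∀ C ∈ XX, C ⊆ T) (hup : ∀ C ∈ XX, ∀ D, C ⊆ D → D ⊆ T → D ∈ XX) (hLX : LL ⊆ XX)
    (hP : ∀ C ∈ XX, T \ C ∈ XX → C ∈ LL) (ha : a ∈ T) (hqp : q < p)
    (hv : ∀ c ≤ T.card, 0 < v c)
    (hstar : ∀ c, 1 ≤ c → c ≤ T.card →
      q * (v (c - 1) + v (T.card - c)) < p * (v c + v (T.card + 1 - c)))
    (hH : ∀ H ⊆ LL, (∀ C ∈ H, ∀ D ∈ H, ¬ Disjoint C D) →
      p * (∑ C ∈ H, v C.card) + q * (∑ C ∈ H, v C.card) ≤ q * ∑ C ∈ LL, v C.card) :
    LL = ∅ := by
  classical
  set P := LL.filter (fun C => T \ C ∈ XX) with hPdef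
  set F := LL.filter (fun C => T \ C ∉ XX) with hFdef
  set Pa := P.filter (fun C => a ∈ C) with hPadef
  set Pn := P.filter (fun C => a ∉ C) with hPndef
  set P1 := Pa.filter (fun C => C.erase a ∈ XX) with hP1def
  set P0 := Pa.filter (fun C => C.erase a ∉ XX) with hP0def
  set Q0 := P.filter (fun C => a ∉ C ∧ (T \ C).erase a ∉ XX) with hQ0def
  have hLT : ∀ C ∈ LL, C ⊆ T := fun C hC => hX C (hLX hC)
  have hPL : P ⊆ LL := Finset.filter_subset _ _
  have hFL : F ⊆ LL := Finset.filter_subset _ _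
  have hPaP : Pa ⊆ P := Finset.filter_subset _ _
  have hP1a : P1 ⊆ Pa := Finset.filter_subset _ _
  have hP0a : P0 ⊆ Pa := Finset.filter_subset _ _
  have hQ0P : Q0 ⊆ P := Finset.filter_subset _ _
  have hPcompl : ∀ C ∈ P, T \ C ∈ P := by
    intro C hC
    rw [hPdef, Finset.mem_filter] at hC ⊢
    have hCT := hLT C hC.1
    have hcc : T \ (T \ C) = C := Finset.sdiff_sdiff_eq_self hCT
    refine ⟨hP _ hC.2 ?_, ?_⟩
    · rw [hcc]; exact hLX hC.1
    · rw [hcc]; exact hLX hC.1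
  -- F meets everything
  have hFX : ∀ C ∈ F, ∀ D ∈ XX, ¬ Disjoint C D := by
    intro C hC D hD hdis
    rw [hFdef, Finset.mem_filter] at hC
    apply hC.2
    refine hup D hD _ ?_ Finset.sdiff_subset
    intro x hx
    rw [Finset.mem_sdiff]
    exact ⟨hX D hD hx, fun hxC => Finset.disjoint_left.mp hdis hxC hx⟩
  -- H1
  have hH1 := hH (F ∪ Pa) (Finset.union_subset hFL (hPaP.trans hPL)) (by
    intro C hC D hD
    rcases Finset.mem_union.mp hC with hC | hC
    · refine hFX C hC D (hLX ?_)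
      rcases Finset.mem_union.mp hD with hD | hD
      · exact hFL hD
      · exact hPL (hPaP hD)
    · rcases Finset.mem_union.mp hD with hD | hD
      · intro hdis
        exact hFX D hD C (hLX (hPL (hPaP hC))) hdis.symm
      · intro hdis
        have h1 : a ∈ C := (Finset.mem_filter.mp hC).2
        have h2 : a ∈ D := (Finset.mem_filter.mp hD).2
        exact Finset.disjoint_left.mp hdis h1 h2)
  have hkey1 : ∀ C ∈ Q0, ∀ D ∈ P1, ¬ Disjoint C D := by
    intro C hC D hD hdis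
    have hC' := (Finset.mem_filter.mp hC).2
    have hD' := (Finset.mem_filter.mp hD).2
    apply hC'.2
    refine hup _ hD' _ ?_ ((Finset.erase_subset _ _).trans Finset.sdiff_subset)
    intro x hx
    rw [Finset.mem_erase] at hx ⊢
    refine ⟨hx.1, ?_⟩
    rw [Finset.mem_sdiff]
    exact ⟨hLT D (hPL (hPaP (hP1a hD))) hx.2, fun hxC => Finset.disjoint_left.mp hdis hxC hx.2⟩
  have hH2 := hH (F ∪ (P1 ∪ Q0)) (Finset.union_subset hFL
      (Finset.union_subset ((hP1a.trans hPaP).trans hPL) (hQ0P.trans hPL))) (by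
    have hsub : P1 ∪ Q0 ⊆ XX := (Finset.union_subset ((hP1a.trans hPaP).trans hPL)
      (hQ0P.trans hPL)).trans hLX
    intro C hC D hD
    rcases Finset.mem_union.mp hC with hC | hC
    · refine hFX C hC D ?_
      rcases Finset.mem_union.mp hD with hD | hD
      · exact hLX (hFL hD)
      · exact hsub hD
    · rcases Finset.mem_union.mp hD with hD | hD
      · intro hdis
        exact hFX D hD C (hsub hC) hdis.symm
      · rcases Finset.mem_union.mp hC with hC | hC
        · rcases Finset.mem_union.mp hD with hD | hD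
          · intro hdis
            have h1 : a ∈ C := (Finset.mem_filter.mp (hP1a hC)).2
            have h2 : a ∈ D := (Finset.mem_filter.mp (hP1a hD)).2
            exact Finset.disjoint_left.mp hdis h1 h2
          · intro hdis
            exact hkey1 D hD C hC hdis.symm
        · rcases Finset.mem_union.mp hD with hD | hD
          · exact hkey1 C hC D hD
          · intro hdis
            have hC' := (Finset.mem_filter.mp hC).2
            have hD' := (Finset.mem_filter.mp hD).2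
            apply hC'.2
            refine hup D (hLX (hPL (hQ0P hD))) _ ?_
              ((Finset.erase_subset _ _).trans Finset.sdiff_subset)
            intro x hx
            rw [Finset.mem_erase, Finset.mem_sdiff]
            exact ⟨fun hxa => hD'.1 (hxa ▸ hx), hLT D (hPL (hQ0P hD)) hx,
              fun hxC => Finset.disjoint_left.mp hdis hxC hx⟩)
  -- sums
  have sLL : ∑ C ∈ LL, v C.card = ∑ C ∈ P, v C.card + ∑ C ∈ F, v C.card :=
    (Finset.sum_filter_add_sum_filter_not LL (fun C => T \ C ∈ XX) _).symm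
  have sP : ∑ C ∈ P, v C.card = ∑ C ∈ Pa, v C.card + ∑ C ∈ Pn, v C.card :=
    (Finset.sum_filter_add_sum_filter_not P (fun C => a ∈ C) _).symm
  have sPa : ∀ f : Finset ℕ → ℕ, ∑ C ∈ Pa, f C = ∑ C ∈ P1, f C + ∑ C ∈ P0, f C := fun f =>
    (Finset.sum_filter_add_sum_filter_not Pa (fun C => C.erase a ∈ XX) _).symm
  have dFP : Disjoint F P := by
    rw [Finset.disjoint_left]
    intro C hC hC'
    exact (Finset.mem_filter.mp hC).2 (Finset.mem_filter.mp hC').2
  have sH1 : ∑ C ∈ F ∪ Pa, v C.card = ∑ C ∈ F, v C.card + ∑ C ∈ Pa, v C.card :=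
    Finset.sum_union (dFP.mono_right hPaP)
  have d1Q : Disjoint P1 Q0 := by
    rw [Finset.disjoint_left]
    intro C hC hC'
    exact (Finset.mem_filter.mp hC').2.1 (Finset.mem_filter.mp (hP1a hC)).2
  have sH2 : ∑ C ∈ F ∪ (P1 ∪ Q0), v C.card =
      ∑ C ∈ F, v C.card + (∑ C ∈ P1, v C.card + ∑ C ∈ Q0, v C.card) := by
    rw [Finset.sum_union (dFP.mono_right (Finset.union_subset (hP1a.trans hPaP) hQ0P)),
      Finset.sum_union d1Q]
  have hPT : ∀ C ∈ P, C ⊆ T := fun C hC => hLT C (hPL hC)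
  have sPn : ∑ C ∈ Pn, v C.card = ∑ C ∈ Pa, v (T.card - C.card) := by
    refine trick_sum_compl T Pn Pa v (fun C hC => hPT C (Finset.filter_subset _ _ hC))
      (fun C hC => hPT C (hPaP hC)) ?_ ?_
    · intro C hC
      rw [hPndef, Finset.mem_filter] at hC
      rw [hPadef, Finset.mem_filter]
      exact ⟨hPcompl C hC.1, Finset.mem_sdiff.mpr ⟨ha, hC.2⟩⟩
    · intro C hC
      rw [hPadef, Finset.mem_filter] at hC
      rw [hPndef, Finset.mem_filter]
      exact ⟨hPcompl C hC.1, fun h => (Finset.mem_sdiff.mp h).2 hC.2⟩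
  have sQ0 : ∑ C ∈ Q0, v C.card = ∑ C ∈ P0, v (T.card - C.card) := by
    refine trick_sum_compl T Q0 P0 v (fun C hC => hPT C (hQ0P hC))
      (fun C hC => hPT C (hPaP (hP0a hC))) ?_ ?_
    · intro C hC
      rw [hQ0def, Finset.mem_filter] at hC
      rw [hP0def, Finset.mem_filter, hPadef, Finset.mem_filter]
      exact ⟨⟨hPcompl C hC.1, Finset.mem_sdiff.mpr ⟨ha, hC.2.1⟩⟩, hC.2.2⟩
    · intro C hC
      rw [hP0def, Finset.mem_filter, hPadef, Finset.mem_filter] at hC
      rw [hQ0def, Finset.mem_filter]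
      refine ⟨hPcompl C hC.1.1, fun h => (Finset.mem_sdiff.mp h).2 hC.1.2, ?_⟩
      rw [Finset.sdiff_sdiff_eq_self (hPT C hC.1.1)]
      exact hC.2
  -- the involution on P1
  have hcard1 : ∀ C ∈ P1, 1 ≤ C.card ∧ C.card ≤ T.card := by
    intro C hC
    have h1 : a ∈ C := (Finset.mem_filter.mp (hP1a hC)).2
    exact ⟨Finset.card_pos.mpr ⟨a, h1⟩, Finset.card_le_card (hPT C (hPaP (hP1a hC)))⟩
  have hιc : ∀ C ∈ P1, (insert a (T \ C)).card = T.card + 1 - C.card := by
    intro C hC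
    have h1 : a ∈ C := (Finset.mem_filter.mp (hP1a hC)).2
    rw [Finset.card_insert_of_notMem (fun h => (Finset.mem_sdiff.mp h).2 h1),
      Finset.card_sdiff_of_subset (hPT C (hPaP (hP1a hC)))]
    have := hcard1 C hC
    omega
  have hιι : ∀ C ∈ P1, insert a (T \ (insert a (T \ C))) = C := by
    intro C hC
    have h1 : a ∈ C := (Finset.mem_filter.mp (hP1a hC)).2
    have h2 := hPT C (hPaP (hP1a hC))
    ext x
    simp only [Finset.mem_insert, Finset.mem_sdiff, not_or, not_and, not_not]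
    constructor
    · rintro (rfl | ⟨hxT, hxa, hx⟩)
      · exact h1
      · exact hx hxT
    · intro hx
      by_cases hxa : x = a
      · exact Or.inl hxa
      · exact Or.inr ⟨h2 hx, hxa, fun _ => hx⟩
  have hιP : ∀ C ∈ P1, insert a (T \ C) ∈ P1 := by
    intro C hC
    have hC1 := hC
    rw [hP1def, Finset.mem_filter, hPadef, Finset.mem_filter] at hC1
    obtain ⟨⟨hCP, haC⟩, hCe⟩ := hC1
    have hcX : T \ C ∈ XX := (Finset.mem_filter.mp hCP).2
    have hins : insert a (T \ C) ⊆ T := Finset.insert_subset ha Finset.sdiff_subset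
    have hiX : insert a (T \ C) ∈ XX := hup _ hcX _ (Finset.subset_insert _ _) hins
    have hcompl : T \ insert a (T \ C) = C.erase a := by
      ext x
      simp only [Finset.mem_sdiff, Finset.mem_insert, Finset.mem_erase, not_or, not_and, not_not]
      constructor
      · rintro ⟨hxT, hxa, hx⟩
        exact ⟨hxa, hx hxT⟩
      · rintro ⟨hxa, hx⟩
        exact ⟨hPT C hCP hx, hxa, fun _ => hx⟩
    have hce : T \ insert a (T \ C) ∈ XX := by rw [hcompl]; exact hCe
    rw [hP1def, Finset.mem_filter, hPadef, Finset.mem_filter, hPdef, Finset.mem_filter]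
    refine ⟨⟨⟨hP _ hiX hce, hce⟩, Finset.mem_insert_self _ _⟩, ?_⟩
    rw [Finset.erase_insert (fun h => (Finset.mem_sdiff.mp h).2 haC)]
    exact hcX
  have hinv : ∀ f : ℕ → ℕ, ∑ C ∈ P1, f C.card = ∑ C ∈ P1, f (T.card + 1 - C.card) := by
    intro f
    refine Finset.sum_nbij' (fun C => insert a (T \ C)) (fun C => insert a (T \ C)) hιP hιP
      hιι hιι ?_
    intro C hC
    rw [hιc C hC]
    have := hcard1 C hC
    congr 1
    omega
  have hinv2 : ∑ C ∈ P1, v (T.card - C.card) = ∑ C ∈ P1, v (C.card - 1) := by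
    rw [hinv (fun c => v (T.card - c))]
    refine Finset.sum_congr rfl fun C hC => ?_
    have := hcard1 C hC
    congr 1
    omega
  have hstar' : ∀ C ∈ P1, q * (v (C.card - 1) + v (T.card - C.card)) <
      p * (v C.card + v (T.card + 1 - C.card)) := fun C hC =>
    hstar _ (hcard1 C hC).1 (hcard1 C hC).2
  set VF := ∑ C ∈ F, v C.card with hVF
  set V1 := ∑ C ∈ P1, v C.card with hV1
  set V0 := ∑ C ∈ P0, v C.card with hV0
  set VQ := ∑ C ∈ Q0, v C.card with hVQ
  set R1 := ∑ C ∈ P1, v (T.card - C.card) with hR1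
  have e1 : ∑ C ∈ P1, q * (v (C.card - 1) + v (T.card - C.card)) = 2 * (q * R1) := by
    rw [← Finset.mul_sum, Finset.sum_add_distrib, ← hinv2]
    ring
  have e2 : ∑ C ∈ P1, p * (v C.card + v (T.card + 1 - C.card)) = 2 * (p * V1) := by
    rw [← Finset.mul_sum, Finset.sum_add_distrib, ← hinv]
    ring
  have hle : q * R1 ≤ p * V1 := by
    have := Finset.sum_le_sum (fun C hC => (hstar' C hC).le)
    rw [e1, e2] at this
    omega
  have hmain : p * (VF + (V1 + V0)) + q * (VF + (V1 + V0)) + (p * (VF + (V1 + VQ)) +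
      q * (VF + (V1 + VQ))) ≤ 2 * (q * ((V1 + V0) + (R1 + VQ) + VF)) := by
    have hLLv : ∑ C ∈ LL, v C.card = (V1 + V0) + (R1 + VQ) + VF := by
      rw [sLL, sP, sPn, sPa, sPa, sQ0]
    rw [hLLv, sH1, sPa, ← hV1, ← hV0] at hH1
    rw [hLLv, sH2] at hH2
    omega
  have hpq : q + 1 ≤ p := hqp
  have hX0 : 2 * (p * VF) + (V0 + VQ) + 2 * (p * V1) ≤ 2 * (q * R1) := by
    have h5 : (q + 1) * (V0 + VQ) ≤ p * (V0 + VQ) := Nat.mul_le_mul_right _ hpq
    nlinarith
  have hP1e : P1 = ∅ := by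
    by_contra hne
    have hne' : P1.Nonempty := Finset.nonempty_iff_ne_empty.mpr hne
    have := Finset.sum_lt_sum_of_nonempty hne' hstar'
    rw [e1, e2] at this
    omega
  have hVF0 : VF = 0 := by
    have : p * VF = 0 := by omega
    rcases Nat.mul_eq_zero.mp this with h | h
    · omega
    · exact h
  have hV00 : V0 = 0 := by omega
  have hempty : ∀ G ⊆ LL, ∑ C ∈ G, v C.card = 0 → G = ∅ := by
    intro G hG hs
    by_contra hne
    obtain ⟨C, hC⟩ := Finset.nonempty_iff_ne_empty.mpr hne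
    have := (Finset.sum_eq_zero_iff.mp hs) C hC
    have h2 := hv C.card (Finset.card_le_card (hLT C (hG hC)))
    omega
  have hFe : F = ∅ := hempty F hFL hVF0
  have hP0e : P0 = ∅ := hempty P0 ((hP0a.trans hPaP).trans hPL) hV00
  have hPae : ∀ C, C ∉ Pa := by
    intro C hC
    by_cases h : C.erase a ∈ XX
    · have : C ∈ P1 := Finset.mem_filter.mpr ⟨hC, h⟩
      rw [hP1e] at this
      exact absurd this (Finset.notMem_empty _)
    · have : C ∈ P0 := Finset.mem_filter.mpr ⟨hC, h⟩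
      rw [hP0e] at this
      exact absurd this (Finset.notMem_empty _)
  rw [Finset.eq_empty_iff_forall_notMem]
  intro C hC
  by_cases h : T \ C ∈ XX
  · have hCP : C ∈ P := Finset.mem_filter.mpr ⟨hC, h⟩
    by_cases haC : a ∈ C
    · exact hPae C (Finset.mem_filter.mpr ⟨hCP, haC⟩)
    · exact hPae (T \ C) (Finset.mem_filter.mpr ⟨hPcompl C hCP, Finset.mem_sdiff.mpr ⟨ha, haC⟩⟩)
  · have : C ∈ F := Finset.mem_filter.mpr ⟨hC, h⟩
    rw [hFe] at this
    exact absurd this (Finset.notMem_empty _)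

end Pool.Agent.H37.WK
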