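import Pool.Agent.H37.WK.Off
import Pool.Agent.H37.WK.Diag
import Pool.Agent.H37.WK.Trick
import Pool.Agent.H37.WK.Star

/-!
Module Step.  `L i = ∅` for `1 ≤ i ≤ l` if `T ≠ ∅`.

Let `j = l + t + 1 - i ≥ 1`.  If `i ≠ j`: `off`.  If `2 i = l + t + 1` (so `t + 1 ≤ l` as `i ≤ l`): `trick` with
`XX = X i`, `LL = L i`, `v c = sb t (n - (i + c))`, `p = l + t + 1`, `q = l + 1 - t`, `n = l + 1 + |T|`.
`hP`: if `C ∈ X i`, `T \ C ∈ X i` then `C ∉ Y i` by `cross` (applied to `T \ C` and `C`:
`l + t + 2 ≤ 2 i` is false).  `hv`: `sb_pos`.  `hstar`: `star` with `b = n - i - c`,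
`b' = i + c - t - 1` (`b + b' + t + 1 = n`; `b + 1 = n - (i + (c-1))`;
`n - (i + (N + 1 - c)) = i + c - t - 1 = b'` since `n - N - 1 = l = 2 i - t - 1`; and
`n - (i + (N - c)) = b' + 1`; all natural since `1 ≤ c ≤ N`, `t + 1 ≤ i ≤ l`).
`hH`: `ineq_diag`.  If `T = ∅` nothing is claimed.
-/

open Finset

namespace Pool.Agent.H37.WK

variable {B T : Finset ℕ} {e t : ℕ} {U : Finset (Finset ℕ)}

lemma step (h : Ctx B T e t U) (hn : 4 * t ^ 3 ≤ (insert e (B ∪ T)).card) (hT : T.Nonempty)
    {i : ℕ} (hi : 1 ≤ i) (hil : i ≤ B.card) : L B T e U i = ∅ := by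
  classical
  have hcard : (insert e (B ∪ T)).card = B.card + T.card + 1 := by
    rw [card_insert_of_notMem (by
      rw [mem_union]; rintro (h1 | h1)
      · exact h.heB h1
      · exact h.heT h1), card_union_of_disjoint h.hBT]
  by_cases hij : 2 * i = B.card + t + 1
  · obtain ⟨a, ha⟩ := hT
    have hT1 : 1 ≤ T.card := card_pos.2 ⟨a, ha⟩
    refine trick T (X B T U i) (L B T e U i)
      (fun c => sb t ((insert e (B ∪ T)).card - (i + c))) (B.card + t + 1) (B.card + 1 - t) a
      (fun C hC => (mem_X h hC).1) (fun C hC D hCD hD => X_up h hC hCD hD)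
      sdiff_subset ?_ ha (by have := h.ht; omega) (fun c _ => sb_pos h.ht _) ?_ ?_
    · intro C hC hC'
      unfold L
      rw [mem_sdiff]
      refine ⟨hC, fun hY => ?_⟩
      have := cross h hi hC' hY sdiff_disjoint
      omega
    · intro c hc1 hc2
      have ht := h.ht
      have hst := star (n := (insert e (B ∪ T)).card) (t := t) (l := B.card)
        (b := (insert e (B ∪ T)).card - i - c) (b' := i + c - t - 1) ht hn
        (by omega) (by omega) (by omega)
      have e1 : (insert e (B ∪ T)).card - (i + (c - 1)) =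
          (insert e (B ∪ T)).card - i - c + 1 := by omega
      have e2 : (insert e (B ∪ T)).card - (i + (T.card - c)) = i + c - t - 1 + 1 := by omega
      have e3 : (insert e (B ∪ T)).card - (i + c) = (insert e (B ∪ T)).card - i - c := by omega
      have e4 : (insert e (B ∪ T)).card - (i + (T.card + 1 - c)) = i + c - t - 1 := by omega
      show (B.card + 1 - t) * (sb t ((insert e (B ∪ T)).card - (i + (c - 1))) +
        sb t ((insert e (B ∪ T)).card - (i + (T.card - c)))) <
        (B.card + t + 1) * (sb t ((insert e (B ∪ T)).card - (i + c)) +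
          sb t ((insert e (B ∪ T)).card - (i + (T.card + 1 - c))))
      rw [e1, e2, e3, e4]
      exact hst
    · intro H hH hint
      exact ineq_diag h hi hil hij hH hint
  · exact off h hi (j := B.card + t + 1 - i) (by omega) (by omega)

end Pool.Agent.H37.WK
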