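import Pool.Agent.H37.WK.Num

/-!
Module Up.  An optimal family is an up-set in the subsets of `V`: adding a superset of a member
keeps the family `(t+1)`-intersecting (for the new set `A'` with itself: `A ⊆ A'`), and every set
has positive weight (`sb_pos`).
-/

open Finset

namespace Pool.Agent.H37.WK

/-- No family on `V` that contains `U` properly has the intersection property. -/
lemma opt_maximal {V : Finset ℕ} {t : ℕ} (ht : 1 ≤ t) {U : Finset (Finset ℕ)} (hU : Opt V t U)
    {A : Finset ℕ} (hA : A ⊆ V) (hc : t + 1 ≤ A.card) (h : ∀ B ∈ U, t + 1 ≤ (A ∩ B).card) :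
    A ∈ U := by
  by_contra hn
  have hF : Fam V (t + 1) (insert A U) := by
    refine ⟨fun B hB => ?_, fun B hB C hC => ?_⟩
    · rcases mem_insert.mp hB with rfl | hB
      · exact hA
      · exact hU.1.1 B hB
    · rcases mem_insert.mp hB with h1 | h1
      · rcases mem_insert.mp hC with h2 | h2
        · rw [h1, h2, inter_self]; exact hc
        · rw [h1]; exact h C h2
      · rcases mem_insert.mp hC with h2 | h2
        · rw [h2, inter_comm]; exact h B h1
        · exact hU.1.2 B h1 C h2
  have h1 := hU.2 _ hF
  unfold W at h1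
  rw [sum_insert hn] at h1
  have h2 := sb_pos ht (V.card - A.card)
  omega

lemma opt_up {V : Finset ℕ} {t : ℕ} (ht : 1 ≤ t) {U : Finset (Finset ℕ)} (hU : Opt V t U)
    {A A' : Finset ℕ} (hA : A ∈ U) (hAA' : A ⊆ A') (hA' : A' ⊆ V) : A' ∈ U := by
  refine opt_maximal ht hU hA' ?_ fun B hB => ?_
  · have h1 := hU.1.2 A hA A hA
    rw [inter_self] at h1
    exact h1.trans (card_le_card hAA')
  · exact (hU.1.2 A hA B hB).trans (card_le_card (inter_subset_inter_right hAA'))

end Pool.Agent.H37.WK
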